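import Mathlib

/-!
Definitions used in the statement.
-/

open Filter Topology MeasureTheory

namespace Pool.Agent.Lib.MP_ec63c8_an.HC

/-- `X` is isomorphic to a complex Hilbert space. -/
def Hilbertian (X : Type) [NormedAddCommGroup X] [NormedSpace ℂ X] : Prop :=
  ∃ (H : Type) (_ : NormedAddCommGroup H) (_ : InnerProductSpace ℂ H) (_ : CompleteSpace H),
    Nonempty (X ≃L[ℂ] H)

/-- The integrand of the Laplace transform `R (a + i s) x = ∫ e^{-(a + i s) t} T t x dt`. -/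
noncomputable def integrand {Y : Type} [NormedAddCommGroup Y] [NormedSpace ℂ Y]
    (T : ℝ → (Y →L[ℂ] Y)) (x : Y) (a s t : ℝ) : Y :=
  Complex.exp (-(((a : ℂ) + (s : ℂ) * Complex.I) * (t : ℂ))) • T t x

/-- The integral over `s` of `‖R (a + i s) x‖ ^ 2`, with values in `[0, ∞]`. -/
noncomputable def resInt {Y : Type} [NormedAddCommGroup Y] [NormedSpace ℂ Y]
    (T : ℝ → (Y →L[ℂ] Y)) (x : Y) (a : ℝ) : ENNReal :=
  ∫⁻ s : ℝ, ((‖∫ t in Set.Ioi (0 : ℝ), integrand T x a s t‖₊ : ENNReal)) ^ 2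

/-- The equivalence of the question holds on `Y`: for every bounded strongly continuous semigroup
and every vector, the orbit tends to zero iff the resolvent condition holds. -/
def HoldsOn (Y : Type) [NormedAddCommGroup Y] [NormedSpace ℂ Y] : Prop :=
  ∀ T : ℝ → (Y →L[ℂ] Y),
    T 0 = 1 →
    (∀ s t : ℝ, 0 ≤ s → 0 ≤ t → T (s + t) = T s * T t) →
    (∀ x : Y, ContinuousOn (fun t : ℝ => T t x) (Set.Ici (0 : ℝ))) →
    (∃ M : ℝ, ∀ t : ℝ, 0 ≤ t → ‖T t‖ ≤ M) →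
    ∀ x : Y,
      (Tendsto (fun t : ℝ => T t x) atTop (𝓝 0) ↔
        Tendsto (fun a : ℝ => ENNReal.ofReal a * resInt T x a) (𝓝[>] (0 : ℝ)) (𝓝 0))

/-- There is a norm continuous semigroup on `Y` with bound `C`, all orbits tending to zero and all
resolvent integrals finite, and a vector for which the quantity in the resolvent condition has
upper limit `∞`. -/
def FailsOn (Y : Type) [NormedAddCommGroup Y] [NormedSpace ℂ Y] (C : ℝ) : Prop :=
  ∃ T : ℝ → (Y →L[ℂ] Y),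
    T 0 = 1 ∧
    (∀ s t : ℝ, T (s + t) = T s * T t) ∧
    Continuous T ∧
    (∀ t : ℝ, 0 ≤ t → ‖T t‖ ≤ C) ∧
    (∀ g : Y,
      Tendsto (fun t : ℝ => T t g) atTop (𝓝 0) ∧
      (∀ a : ℝ, 0 < a → ∀ s : ℝ, IntegrableOn (integrand T g a s) (Set.Ioi (0 : ℝ))) ∧
      (∀ a : ℝ, 0 < a → resInt T g a < ⊤)) ∧
    ∃ g : Y, limsup (fun a : ℝ => ENNReal.ofReal a * resInt T g a) (𝓝[>] (0 : ℝ)) = ⊤

/-- `FailsOn` holds on every Banach space that contains a complemented copy of `E`. -/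
def FailsOnCopies (E : Type) [NormedAddCommGroup E] [NormedSpace ℂ E] : Prop :=
  ∀ (Y : Type) [NormedAddCommGroup Y] [NormedSpace ℂ Y] [CompleteSpace Y]
    (J : E →L[ℂ] Y) (Q : Y →L[ℂ] E), (∀ f, Q (J f) = f) → FailsOn Y (‖J‖ * ‖Q‖)

end Pool.Agent.Lib.MP_ec63c8_an.HC
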