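import Mathlib

/-!
A norm one complemented copy of `lp (ℕ; X)` in the Bochner space `L^p (μ; X)`.
-/

open Filter Topology MeasureTheory Set Function
open scoped ENNReal

namespace Pool.Agent.Lib.MP_ec63c8_an.HC

variable {X : Type} [NormedAddCommGroup X] [NormedSpace ℂ X] {p : ENNReal}
  {Ω : Type} [MeasurableSpace Ω] {μ : Measure Ω} {A : ℕ → Set Ω}

omit [MeasurableSpace Ω] in
lemma ex_idx (A : ℕ → Set Ω) (ω : Ω) : ∃ n, ω ∈ A n ∪ (⋃ k, A k)ᶜ := by
  by_cases h : ω ∈ ⋃ k, A k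
  · obtain ⟨n, hn⟩ := mem_iUnion.1 h
    exact ⟨n, Or.inl hn⟩
  · exact ⟨0, Or.inr h⟩

open Classical in
/-- The step function with value `y n` on `A n`. -/
noncomputable def step (A : ℕ → Set Ω) (y : ℕ → X) : Ω → X :=
  (⋃ k, A k).indicator fun ω => y (Nat.find (ex_idx A ω))

omit [NormedSpace ℂ X] [MeasurableSpace Ω] in
lemma step_of_mem (hd : Pairwise (Disjoint on A)) (y : ℕ → X) {n : ℕ} {ω : Ω} (h : ω ∈ A n) :
    step A y ω = y n := by
  classical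
  have h1 : ω ∈ ⋃ k, A k := mem_iUnion.2 ⟨n, h⟩
  have h2 : ω ∈ A (Nat.find (ex_idx A ω)) :=
    (Nat.find_spec (ex_idx A ω)).resolve_right fun h3 => h3 h1
  have h4 : Nat.find (ex_idx A ω) = n :=
    by_contra fun h5 => Set.disjoint_left.1 (hd h5) h2 h
  rw [step, indicator_of_mem h1]
  exact congrArg y h4

omit [NormedSpace ℂ X] in
lemma step_meas (hm : ∀ n, MeasurableSet (A n)) (y : ℕ → X) : StronglyMeasurable (step A y) := by
  classical
  refine StronglyMeasurable.indicator ?_ (MeasurableSet.iUnion hm)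
  exact (StronglyMeasurable.of_discrete (f := y)).comp_measurable
    (measurable_find (ex_idx A) fun k => (hm k).union (MeasurableSet.iUnion hm).compl)

omit [NormedSpace ℂ X] in
lemma lintegral_step (hm : ∀ n, MeasurableSet (A n)) (hd : Pairwise (Disjoint on A)) (y : ℕ → X)
    {q : ℝ} (hq : 0 < q) : ∫⁻ ω, ‖step A y ω‖ₑ ^ q ∂μ = ∑' n, ‖y n‖ₑ ^ q * μ (A n) := by
  have h1 : (fun ω => ‖step A y ω‖ₑ ^ q) = (⋃ k, A k).indicator fun ω => ‖step A y ω‖ₑ ^ q := by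
    funext ω
    by_cases h : ω ∈ ⋃ k, A k
    · rw [indicator_of_mem h]
    · rw [indicator_of_notMem h, step, indicator_of_notMem h, enorm_zero,
        ENNReal.zero_rpow_of_pos hq]
  rw [h1, lintegral_indicator (MeasurableSet.iUnion hm), lintegral_iUnion hm hd]
  refine tsum_congr fun n => ?_
  rw [← setLIntegral_const]
  exact setLIntegral_congr_fun (hm n) fun ω hω => by simp only [step_of_mem hd y hω]

variable [Fact (1 ≤ p)]

lemma eLpNorm_step (hp : p ≠ ⊤) (hm : ∀ n, MeasurableSet (A n)) (hd : Pairwise (Disjoint on A))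
    (h0 : ∀ n, μ (A n) ≠ 0) (h1 : ∀ n, μ (A n) ≠ ⊤) (f : lp (fun _ : ℕ => X) p) :
    eLpNorm (step A fun n => ((μ.real (A n) ^ (-p.toReal⁻¹) : ℝ) : ℂ) • f n) p μ =
      ENNReal.ofReal ‖f‖ := by
  have hp0 : p ≠ 0 := (zero_lt_one.trans_le (Fact.out : 1 ≤ p)).ne'
  have hq : 0 < p.toReal := ENNReal.toReal_pos hp0 hp
  have h2 : ∀ n, ‖((μ.real (A n) ^ (-p.toReal⁻¹) : ℝ) : ℂ) • f n‖ₑ ^ p.toReal * μ (A n) =
      ENNReal.ofReal (‖f n‖ ^ p.toReal) := fun n => by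
    have h3 : 0 < μ.real (A n) := ENNReal.toReal_pos (h0 n) (h1 n)
    rw [← ofReal_norm, ENNReal.ofReal_rpow_of_nonneg (norm_nonneg _) hq.le,
      ← ofReal_measureReal (h1 n), ← ENNReal.ofReal_mul (by positivity), norm_smul,
      Complex.norm_real, Real.norm_of_nonneg (by positivity),
      Real.mul_rpow (by positivity) (norm_nonneg _), ← Real.rpow_mul h3.le, neg_mul,
      inv_mul_cancel₀ hq.ne', Real.rpow_neg_one]
    congr 1
    field_simp
  rw [eLpNorm_eq_lintegral_rpow_enorm_toReal hp0 hp, lintegral_step hm hd _ hq]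
  simp only [h2]
  rw [← ENNReal.ofReal_tsum_of_nonneg (fun n => by positivity) (lp.hasSum_norm hq f).summable,
    (lp.hasSum_norm hq f).tsum_eq, ENNReal.ofReal_rpow_of_nonneg (by positivity) (by positivity),
    one_div, Real.rpow_rpow_inv (norm_nonneg _) hq.ne']

omit [NormedSpace ℂ X] in
lemma integrableOn_Lp (g : Lp X p μ) {B : Set Ω} (h : μ B ≠ ⊤) : IntegrableOn g B μ := by
  have : IsFiniteMeasure (μ.restrict B) := isFiniteMeasure_restrict.2 h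
  exact ((Lp.memLp g).restrict B).integrable Fact.out

lemma avg_le (hp : p ≠ ⊤) (g : Lp X p μ) {B : Set Ω} (h0 : μ B ≠ 0) (h1 : μ B ≠ ⊤) :
    ENNReal.ofReal (‖((μ.real B ^ (p.toReal⁻¹ - 1) : ℝ) : ℂ) • ∫ ω in B, g ω ∂μ‖ ^ p.toReal) ≤
      ∫⁻ ω in B, ‖g ω‖ₑ ^ p.toReal ∂μ := by
  have hp0 : p ≠ 0 := (zero_lt_one.trans_le (Fact.out : 1 ≤ p)).ne'
  have hq : 0 < p.toReal := ENNReal.toReal_pos hp0 hp
  have h3 : 0 < μ.real B := ENNReal.toReal_pos h0 h1
  have h4 := eLpNorm_le_eLpNorm_mul_rpow_measure_univ (μ := μ.restrict B) (Fact.out : 1 ≤ p)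
    (Lp.aestronglyMeasurable g).restrict
  rw [eLpNorm_one_eq_lintegral_enorm, Measure.restrict_apply_univ, ENNReal.toReal_one, div_one,
    one_div, ← ofReal_measureReal h1, ENNReal.ofReal_rpow_of_pos h3] at h4
  have h5 : ‖((μ.real B ^ (p.toReal⁻¹ - 1) : ℝ) : ℂ) • ∫ ω in B, g ω ∂μ‖ₑ ≤
      eLpNorm g p (μ.restrict B) := by
    rw [enorm_smul, ← ofReal_norm, Complex.norm_real, Real.norm_of_nonneg (by positivity)]
    refine (mul_le_mul_right ((enorm_integral_le_lintegral_enorm _).trans h4) _).trans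
      (le_of_eq ?_)
    rw [mul_left_comm, ← ENNReal.ofReal_mul (by positivity), ← Real.rpow_add h3]
    simp
  rw [← ENNReal.ofReal_rpow_of_nonneg (norm_nonneg _) hq.le, ofReal_norm]
  refine (ENNReal.rpow_le_rpow h5 hq.le).trans (le_of_eq ?_)
  rw [eLpNorm_eq_lintegral_rpow_enorm_toReal hp0 hp, one_div, ENNReal.rpow_inv_rpow hq.ne']

lemma sum_avg_le (hp : p ≠ ⊤) (hm : ∀ n, MeasurableSet (A n)) (hd : Pairwise (Disjoint on A))
    (h0 : ∀ n, μ (A n) ≠ 0) (h1 : ∀ n, μ (A n) ≠ ⊤) (g : Lp X p μ) (s : Finset ℕ) :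
    ∑ n ∈ s, ‖((μ.real (A n) ^ (p.toReal⁻¹ - 1) : ℝ) : ℂ) • ∫ ω in A n, g ω ∂μ‖ ^ p.toReal ≤
      ‖g‖ ^ p.toReal := by
  have hp0 : p ≠ 0 := (zero_lt_one.trans_le (Fact.out : 1 ≤ p)).ne'
  have hq : 0 < p.toReal := ENNReal.toReal_pos hp0 hp
  rw [← ENNReal.ofReal_le_ofReal_iff (by positivity),
    ENNReal.ofReal_sum_of_nonneg fun n _ => by positivity]
  refine (Finset.sum_le_sum fun n _ => avg_le hp g (h0 n) (h1 n)).trans ?_
  rw [← lintegral_biUnion_finset (fun i _ j _ hij => hd hij) fun n _ => hm n]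
  refine (setLIntegral_le_lintegral _ _).trans (le_of_eq ?_)
  rw [← ENNReal.ofReal_rpow_of_nonneg (norm_nonneg _) hq.le, ofReal_norm, Lp.enorm_def,
    eLpNorm_eq_lintegral_rpow_enorm_toReal hp0 hp, one_div, ENNReal.rpow_inv_rpow hq.ne']

theorem exists_emb [CompleteSpace X] (hp : p ≠ ⊤) (hm : ∀ n, MeasurableSet (A n))
    (hd : Pairwise (Disjoint on A)) (h0 : ∀ n, μ (A n) ≠ 0) (h1 : ∀ n, μ (A n) ≠ ⊤) :
    ∃ (J : lp (fun _ : ℕ => X) p →L[ℂ] Lp X p μ) (Q : Lp X p μ →L[ℂ] lp (fun _ : ℕ => X) p),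
      (∀ f, Q (J f) = f) ∧ ‖J‖ ≤ 1 ∧ ‖Q‖ ≤ 1 := by
  have hp0 : p ≠ 0 := (zero_lt_one.trans_le (Fact.out : 1 ≤ p)).ne'
  have hq : 0 < p.toReal := ENNReal.toReal_pos hp0 hp
  have hmem : ∀ f : lp (fun _ : ℕ => X) p,
      MemLp (step A fun n => ((μ.real (A n) ^ (-p.toReal⁻¹) : ℝ) : ℂ) • f n) p μ := fun f =>
    ⟨(step_meas hm _).aestronglyMeasurable, by
      rw [eLpNorm_step hp hm hd h0 h1]; exact ENNReal.ofReal_lt_top⟩
  let J0 : lp (fun _ : ℕ => X) p →ₗ[ℂ] Lp X p μ :=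
    { toFun := fun f => (hmem f).toLp _
      map_add' := fun f g => by
        rw [← MemLp.toLp_add]
        refine MemLp.toLp_congr _ _ (Eventually.of_forall fun ω => ?_)
        simp only [step, Pi.add_apply, lp.coeFn_add, smul_add]
        by_cases h : ω ∈ ⋃ k, A k
        · simp only [indicator_of_mem h]
        · simp only [indicator_of_notMem h, add_zero]
      map_smul' := fun c f => by
        rw [RingHom.id_apply, ← MemLp.toLp_const_smul]
        refine MemLp.toLp_congr _ _ (Eventually.of_forall fun ω => ?_)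
        simp only [step, Pi.smul_apply, lp.coeFn_smul]
        by_cases h : ω ∈ ⋃ k, A k
        · simp only [indicator_of_mem h]
          exact smul_comm _ _ _
        · simp only [indicator_of_notMem h, smul_zero] }
  have hJ : ∀ f, ‖J0 f‖ ≤ 1 * ‖f‖ := fun f => by
    change ‖(hmem f).toLp _‖ ≤ _
    rw [Lp.norm_toLp, eLpNorm_step hp hm hd h0 h1, ENNReal.toReal_ofReal (norm_nonneg _), one_mul]
  let Q0 : Lp X p μ →ₗ[ℂ] lp (fun _ : ℕ => X) p :=
    { toFun := fun g => ⟨fun n => ((μ.real (A n) ^ (p.toReal⁻¹ - 1) : ℝ) : ℂ) •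
        ∫ ω in A n, g ω ∂μ, memℓp_gen' (sum_avg_le hp hm hd h0 h1 g)⟩
      map_add' := fun f g => lp.ext (funext fun n => by
        change ((μ.real (A n) ^ (p.toReal⁻¹ - 1) : ℝ) : ℂ) • ∫ ω in A n, (f + g : Lp X p μ) ω ∂μ =
          ((μ.real (A n) ^ (p.toReal⁻¹ - 1) : ℝ) : ℂ) • ∫ ω in A n, f ω ∂μ +
            ((μ.real (A n) ^ (p.toReal⁻¹ - 1) : ℝ) : ℂ) • ∫ ω in A n, g ω ∂μ
        rw [← smul_add, ← integral_add (integrableOn_Lp f (h1 n)) (integrableOn_Lp g (h1 n)),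
          integral_congr_ae (ae_restrict_of_ae (Lp.coeFn_add f g))]
        rfl)
      map_smul' := fun c f => lp.ext (funext fun n => by
        change ((μ.real (A n) ^ (p.toReal⁻¹ - 1) : ℝ) : ℂ) • ∫ ω in A n, (c • f : Lp X p μ) ω ∂μ =
          c • ((μ.real (A n) ^ (p.toReal⁻¹ - 1) : ℝ) : ℂ) • ∫ ω in A n, f ω ∂μ
        rw [smul_comm c, ← integral_smul c,
          integral_congr_ae (ae_restrict_of_ae (Lp.coeFn_smul c f))]
        rfl) }
  have hQ : ∀ g, ‖Q0 g‖ ≤ 1 * ‖g‖ := fun g => by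
    rw [one_mul]
    exact lp.norm_le_of_forall_sum_le hq (norm_nonneg _) (sum_avg_le hp hm hd h0 h1 g)
  refine ⟨J0.mkContinuous 1 hJ, Q0.mkContinuous 1 hQ, fun f => lp.ext (funext fun n => ?_),
    LinearMap.mkContinuous_norm_le _ zero_le_one _, LinearMap.mkContinuous_norm_le _ zero_le_one _⟩
  have h3 : 0 < μ.real (A n) := ENNReal.toReal_pos (h0 n) (h1 n)
  change ((μ.real (A n) ^ (p.toReal⁻¹ - 1) : ℝ) : ℂ) • ∫ ω in A n, (hmem f).toLp _ ω ∂μ = f n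
  rw [integral_congr_ae (ae_restrict_of_ae (hmem f).coeFn_toLp),
    setIntegral_congr_fun (hm n) fun ω hω => step_of_mem hd _ hω, setIntegral_const,
    ← Complex.coe_smul, smul_smul, smul_smul, ← Complex.ofReal_mul, ← Complex.ofReal_mul,
    ← Real.rpow_add_one h3.ne', ← Real.rpow_add h3]
  simp

omit [Fact (1 ≤ p)] in
lemma embed_Lp_two {H : Type} [NormedAddCommGroup H] [InnerProductSpace ℂ H] (e : X ≃L[ℂ] H) :
    ∃ (J : Lp X 2 μ →L[ℂ] Lp H 2 μ) (K : ℝ), 0 < K ∧ ∀ y, ‖y‖ ≤ K * ‖J y‖ := by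
  refine ⟨(e : X →L[ℂ] H).compLpL 2 μ, ‖(e.symm : H →L[ℂ] X)‖ + 1, by positivity, fun y => ?_⟩
  have h1 := ((e.symm : H →L[ℂ] X).compLpL 2 μ).le_of_opNorm_le
    (ContinuousLinearMap.norm_compLpL_le _) ((e : X →L[ℂ] H).compLpL 2 μ y)
  have h2 : (e.symm : H →L[ℂ] X).compLpL 2 μ ((e : X →L[ℂ] H).compLpL 2 μ y) = y := by
    refine Lp.ext ?_
    filter_upwards [(e.symm : H →L[ℂ] X).coeFn_compLpL ((e : X →L[ℂ] H).compLpL 2 μ y),
      (e : X →L[ℂ] H).coeFn_compLpL y] with ω h3 h4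
    rw [h3, h4]
    exact e.symm_apply_apply _
  rw [h2] at h1
  exact h1.trans (mul_le_mul_of_nonneg_right (by linarith) (norm_nonneg _))

end Pool.Agent.Lib.MP_ec63c8_an.HC
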