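import Mathlib

/-!
The known positive case: spaces that embed isomorphically into a Hilbert space.
-/

open Filter Topology MeasureTheory Set
open scoped ENNReal Real FourierTransform SchwartzMap

namespace Pool.Agent.Lib.MP_ec63c8_an.HC

section Planch

variable {H : Type} [NormedAddCommGroup H] [InnerProductSpace ℂ H] [CompleteSpace H]

theorem planch_ae {f : ℝ → H} (h1 : Integrable f) (h2 : MemLp f 2) :
    ∀ᵐ x, (𝓕 (h2.toLp f) : Lp (α := ℝ) H 2) x = 𝓕 f x := by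
  have hc : Continuous (𝓕 f) := VectorFourier.fourierIntegral_continuous
    Real.continuous_fourierChar (innerSL ℝ).continuous₂ h1
  refine ae_eq_of_integral_contDiff_smul_eq ((Lp.memLp _).locallyIntegrable one_le_two)
    hc.locallyIntegrable fun g hg hs => ?_
  let G : 𝓢(ℝ, ℂ) := HasCompactSupport.toSchwartzMap (f := fun x => ((g x : ℝ) : ℂ))
    (hs.comp_left (g := Complex.ofReal) Complex.ofReal_zero) (Complex.ofRealCLM.contDiff.comp hg)
  have e1 := congrArg (fun T : 𝓢'(ℝ, H) => T G) (Lp.fourier_toTemperedDistribution_eq (h2.toLp f))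
  simp only [TemperedDistribution.fourier_apply, Lp.toTemperedDistribution_apply] at e1
  have e2 : ∫ x, (𝓕 G : 𝓢(ℝ, ℂ)) x • f x = ∫ x, G x • 𝓕 f x := by
    simpa using! VectorFourier.integral_fourierIntegral_smul_eq_flip (L := innerₗ ℝ)
      Real.continuous_fourierChar continuous_inner G.integrable h1
  have e3 : ∀ u : ℝ → H, ∫ x, g x • u x = ∫ x, G x • u x := fun u =>
    integral_congr_ae (Eventually.of_forall fun x => (Complex.coe_smul (g x) (u x)).symm)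
  rw [e3, e3]
  refine e1.symm.trans (Eq.trans (integral_congr_ae ?_) e2)
  filter_upwards [h2.coeFn_toLp] with x hx
  rw [hx]

theorem planch {f : ℝ → H} (h1 : Integrable f) (h2 : MemLp f 2) :
    ∫⁻ x, ‖𝓕 f x‖ₑ ^ 2 = ∫⁻ x, ‖f x‖ₑ ^ 2 := by
  have e : ∀ g : ℝ → H, ∫⁻ x, ‖g x‖ₑ ^ 2 = eLpNorm g 2 volume ^ 2 := fun g => by
    simpa using (eLpNorm_nnreal_pow_eq_lintegral (f := g) (μ := volume) (p := 2)
      two_ne_zero).symm
  rw [e, e, ← eLpNorm_congr_ae (planch_ae h1 h2), ← eLpNorm_congr_ae h2.coeFn_toLp,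
    ← Lp.enorm_def, ← Lp.enorm_def, ← ofReal_norm, ← ofReal_norm, Lp.norm_fourier_eq]

omit [InnerProductSpace ℂ H] [CompleteSpace H] in
lemma integrableOn_sq {u : ℝ → H} (hu : ContinuousOn u (Ici 0)) {B : ℝ}
    (hB : ∀ t, 0 ≤ t → ‖u t‖ ≤ B) {a : ℝ} (ha : 0 < a) :
    IntegrableOn (fun t => Real.exp (-(2 * a) * t) * ‖u t‖ ^ 2) (Ioi 0) := by
  have hc : ContinuousOn (fun t => Real.exp (-(2 * a) * t) * ‖u t‖ ^ 2) (Ioi 0) :=
    (Continuous.continuousOn (by fun_prop)).mul ((hu.mono Ioi_subset_Ici_self).norm.pow 2)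
  refine Integrable.mono' ((exp_neg_integrableOn_Ioi 0 (by positivity : 0 < 2 * a)).mul_const
    (B ^ 2)) (hc.aestronglyMeasurable measurableSet_Ioi) ?_
  filter_upwards [ae_restrict_mem measurableSet_Ioi] with t ht
  rw [Real.norm_of_nonneg (by positivity)]
  exact mul_le_mul_of_nonneg_left (pow_le_pow_left₀ (norm_nonneg _) (hB t (le_of_lt ht)) 2)
    (Real.exp_pos _).le

lemma integrableOn_exp_smul {Y : Type} [NormedAddCommGroup Y] [NormedSpace ℂ Y] {u : ℝ → Y}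
    (hu : ContinuousOn u (Ici 0)) {B : ℝ} (hB : ∀ t, 0 ≤ t → ‖u t‖ ≤ B) {a : ℝ} (ha : 0 < a)
    (s : ℝ) : IntegrableOn (fun t : ℝ =>
      Complex.exp (-(((a : ℂ) + (s : ℂ) * Complex.I) * (t : ℂ))) • u t) (Ioi 0) := by
  have hc : ContinuousOn (fun t : ℝ =>
      Complex.exp (-(((a : ℂ) + (s : ℂ) * Complex.I) * (t : ℂ))) • u t) (Ioi 0) :=
    (Continuous.continuousOn (by fun_prop)).smul (hu.mono Ioi_subset_Ici_self)
  refine Integrable.mono' ((exp_neg_integrableOn_Ioi 0 ha).mul_const B)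
    (hc.aestronglyMeasurable measurableSet_Ioi) ?_
  filter_upwards [ae_restrict_mem measurableSet_Ioi] with t ht
  rw [norm_smul, Complex.norm_exp]
  have h1 : (-(((a : ℂ) + (s : ℂ) * Complex.I) * (t : ℂ))).re = -a * t := by simp
  rw [h1]
  exact mul_le_mul_of_nonneg_left (hB t (le_of_lt ht)) (Real.exp_pos _).le

theorem laplace_planch {u : ℝ → H} (hu : ContinuousOn u (Ici 0)) {B : ℝ}
    (hB : ∀ t, 0 ≤ t → ‖u t‖ ≤ B) {a : ℝ} (ha : 0 < a) :
    ∫⁻ s : ℝ, ‖∫ t in Ioi (0 : ℝ),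
        Complex.exp (-(((a : ℂ) + (s : ℂ) * Complex.I) * (t : ℂ))) • u t‖ₑ ^ 2 =
      ENNReal.ofReal (2 * π * ∫ t in Ioi (0 : ℝ), Real.exp (-(2 * a) * t) * ‖u t‖ ^ 2) := by
  set w : ℝ → H := (Ioi (0 : ℝ)).indicator fun t : ℝ =>
    Complex.exp (-(((a : ℂ) + ((0 : ℝ) : ℂ) * Complex.I) * (t : ℂ))) • u t with hw
  have h1 : Integrable w :=
    (integrable_indicator_iff measurableSet_Ioi).2 (integrableOn_exp_smul hu hB ha 0)
  have hsq : (fun t => ‖w t‖ ^ 2) =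
      (Ioi (0 : ℝ)).indicator fun t => Real.exp (-(2 * a) * t) * ‖u t‖ ^ 2 := by
    funext t
    by_cases ht : t ∈ Ioi (0 : ℝ)
    · rw [hw, indicator_of_mem ht, indicator_of_mem ht, norm_smul, Complex.norm_exp, mul_pow,
        ← Real.exp_nat_mul]
      congr 2
      simp
      ring
    · rw [hw, indicator_of_notMem ht, indicator_of_notMem ht]
      simp
  have h2' : Integrable fun t => ‖w t‖ ^ 2 := by
    rw [hsq]
    exact (integrable_indicator_iff measurableSet_Ioi).2 (integrableOn_sq hu hB ha)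
  have h2 : MemLp w 2 := (memLp_two_iff_integrable_sq_norm h1.aestronglyMeasurable).2 h2'
  have h3 : ∀ s : ℝ, ∫ t in Ioi (0 : ℝ),
      Complex.exp (-(((a : ℂ) + (s : ℂ) * Complex.I) * (t : ℂ))) • u t =
        𝓕 w ((2 * π)⁻¹ * s) := fun s => by
    rw [Real.fourier_real_eq_integral_exp_smul, ← integral_indicator measurableSet_Ioi]
    refine integral_congr_ae (Eventually.of_forall fun t => ?_)
    by_cases ht : t ∈ Ioi (0 : ℝ)
    · simp only [hw, indicator_of_mem ht, smul_smul, ← Complex.exp_add]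
      congr 2
      have h4 : -2 * π * t * ((2 * π)⁻¹ * s) = -(t * s) := by field_simp
      rw [h4]
      push_cast
      ring
    · simp only [hw, indicator_of_notMem ht, smul_zero]
  have h5 : ∫⁻ s : ℝ, ‖𝓕 w ((2 * π)⁻¹ * s)‖ₑ ^ 2 =
      ENNReal.ofReal (2 * π) * ∫⁻ x, ‖𝓕 w x‖ₑ ^ 2 := by
    have hne : (2 * π)⁻¹ ≠ 0 := by positivity
    have h6 := (Homeomorph.mulLeft₀ _ hne).measurableEmbedding.lintegral_map
      (μ := volume) fun x => ‖𝓕 w x‖ₑ ^ 2
    rw [Homeomorph.coe_mulLeft₀, Real.map_volume_mul_left hne, lintegral_smul_measure, inv_inv,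
      abs_of_pos (by positivity)] at h6
    exact h6.symm
  simp only [h3]
  have h7 := ofReal_integral_eq_lintegral_ofReal h2' (Eventually.of_forall fun t => sq_nonneg _)
  simp only [ENNReal.ofReal_pow (norm_nonneg _), ofReal_norm] at h7
  rw [h5, planch h1 h2, ENNReal.ofReal_mul (p := 2 * π) (by positivity),
    ← integral_indicator measurableSet_Ioi, ← hsq, ← h7]

omit [InnerProductSpace ℂ H] [CompleteSpace H] in
lemma abel_tendsto {u : ℝ → H} (hu : ContinuousOn u (Ici 0)) {B : ℝ}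
    (hB : ∀ t, 0 ≤ t → ‖u t‖ ≤ B) (h0 : Tendsto u atTop (𝓝 0)) :
    Tendsto (fun a : ℝ => a * ∫ t in Ioi (0 : ℝ), Real.exp (-(2 * a) * t) * ‖u t‖ ^ 2)
      (𝓝[>] 0) (𝓝 0) := by
  have h1 : Tendsto (fun a : ℝ => ∫ τ in Ioi (0 : ℝ), Real.exp (-2 * τ) * ‖u (a⁻¹ * τ)‖ ^ 2)
      (𝓝[>] 0) (𝓝 (∫ _τ in Ioi (0 : ℝ), (0 : ℝ))) := by
    refine tendsto_integral_filter_of_dominated_convergence
      (fun τ => Real.exp (-2 * τ) * B ^ 2) ?_ ?_
      ((exp_neg_integrableOn_Ioi 0 two_pos).mul_const _) ?_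
    · filter_upwards [self_mem_nhdsWithin] with a ha
      have ha' : 0 < a := ha
      have hc : ContinuousOn (fun τ : ℝ => u (a⁻¹ * τ)) (Ioi 0) :=
        hu.comp (Continuous.continuousOn (by fun_prop)) fun τ hτ =>
          mul_nonneg (inv_pos.2 ha').le (le_of_lt hτ)
      exact ContinuousOn.aestronglyMeasurable
        ((Continuous.continuousOn (by fun_prop)).mul (hc.norm.pow 2)) measurableSet_Ioi
    · filter_upwards [self_mem_nhdsWithin] with a ha
      have ha' : 0 < a := ha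
      filter_upwards [ae_restrict_mem measurableSet_Ioi] with τ hτ
      rw [Real.norm_of_nonneg (by positivity)]
      exact mul_le_mul_of_nonneg_left (pow_le_pow_left₀ (norm_nonneg _)
        (hB _ (mul_nonneg (inv_pos.2 ha').le (le_of_lt hτ))) 2) (Real.exp_pos _).le
    · filter_upwards [ae_restrict_mem measurableSet_Ioi] with τ hτ
      have h2 := ((h0.comp (tendsto_inv_nhdsGT_zero.atTop_mul_const hτ)).norm.pow 2).const_mul
        (Real.exp (-2 * τ))
      simpa using h2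
  rw [integral_zero] at h1
  refine h1.congr' ?_
  filter_upwards [self_mem_nhdsWithin] with a ha
  have ha' : 0 < a := ha
  have h3 := integral_comp_mul_left_Ioi (fun t => Real.exp (-(2 * a) * t) * ‖u t‖ ^ 2) 0
    (inv_pos.2 ha')
  rw [inv_inv, mul_zero, smul_eq_mul] at h3
  rw [← h3]
  refine integral_congr_ae (Eventually.of_forall fun τ => ?_)
  have h4 : -(2 * a) * (a⁻¹ * τ) = -2 * τ := by field_simp
  simp only [h4]

omit [InnerProductSpace ℂ H] [CompleteSpace H] in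
lemma abel_ge {u : ℝ → H} (hu : ContinuousOn u (Ici 0)) {B c : ℝ}
    (hB : ∀ t, 0 ≤ t → ‖u t‖ ≤ B) (hc0 : 0 ≤ c) (hc : ∀ t, 0 ≤ t → c ≤ ‖u t‖) {a : ℝ}
    (ha : 0 < a) :
    c ^ 2 / 2 ≤ a * ∫ t in Ioi (0 : ℝ), Real.exp (-(2 * a) * t) * ‖u t‖ ^ 2 := by
  have h1 : ∫ t in Ioi (0 : ℝ), Real.exp (-(2 * a) * t) * c ^ 2 ≤
      ∫ t in Ioi (0 : ℝ), Real.exp (-(2 * a) * t) * ‖u t‖ ^ 2 :=
    setIntegral_mono_on ((exp_neg_integrableOn_Ioi 0 (by positivity : 0 < 2 * a)).mul_const _)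
      (integrableOn_sq hu hB ha) measurableSet_Ioi fun t ht =>
        mul_le_mul_of_nonneg_left (pow_le_pow_left₀ hc0 (hc t (le_of_lt ht)) 2)
          (Real.exp_pos _).le
  rw [integral_mul_const, integral_exp_mul_Ioi (by linarith)] at h1
  refine le_trans (le_of_eq ?_) (mul_le_mul_of_nonneg_left h1 ha.le)
  simp only [mul_zero, Real.exp_zero]
  field_simp

end Planch

theorem hilbert_case {Y H : Type} [NormedAddCommGroup Y] [NormedSpace ℂ Y] [CompleteSpace Y]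
    [NormedAddCommGroup H] [InnerProductSpace ℂ H] [CompleteSpace H] (J : Y →L[ℂ] H) {K : ℝ}
    (hK : 0 < K) (hJ : ∀ y, ‖y‖ ≤ K * ‖J y‖) (T : ℝ → (Y →L[ℂ] Y))
    (hadd : ∀ s t : ℝ, 0 ≤ s → 0 ≤ t → T (s + t) = T s * T t)
    (hcont : ∀ x : Y, ContinuousOn (fun t : ℝ => T t x) (Ici (0 : ℝ)))
    (hbd : ∃ M : ℝ, ∀ t : ℝ, 0 ≤ t → ‖T t‖ ≤ M) (x : Y) :
    Tendsto (fun t : ℝ => T t x) atTop (𝓝 0) ↔
      Tendsto (fun a : ℝ => ENNReal.ofReal a * ∫⁻ s : ℝ, ((‖∫ t in Ioi (0 : ℝ),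
        Complex.exp (-(((a : ℂ) + (s : ℂ) * Complex.I) * (t : ℂ))) • T t x‖₊ : ENNReal)) ^ 2)
        (𝓝[>] (0 : ℝ)) (𝓝 0) := by
  obtain ⟨M, hM⟩ := hbd
  have hM0 : 0 ≤ M := (norm_nonneg _).trans (hM 0 le_rfl)
  have hB : ∀ t, 0 ≤ t → ‖T t x‖ ≤ M * ‖x‖ := fun t ht => (T t).le_of_opNorm_le (hM t ht) x
  have hB' : ∀ t, 0 ≤ t → ‖J (T t x)‖ ≤ ‖J‖ * (M * ‖x‖) := fun t ht =>
    J.le_opNorm_of_le (hB t ht)
  have hu : ContinuousOn (fun t : ℝ => J (T t x)) (Ici 0) :=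
    J.continuous.comp_continuousOn (hcont x)
  set A : ℝ → ℝ := fun a => a * ∫ t in Ioi (0 : ℝ), Real.exp (-(2 * a) * t) * ‖J (T t x)‖ ^ 2
    with hA
  set R : ℝ → ℝ → Y := fun a s => ∫ t in Ioi (0 : ℝ),
    Complex.exp (-(((a : ℂ) + (s : ℂ) * Complex.I) * (t : ℂ))) • T t x with hR
  have hP : ∀ a : ℝ, 0 < a → ENNReal.ofReal a * ∫⁻ s : ℝ, ‖J (R a s)‖ₑ ^ 2 =
      ENNReal.ofReal (2 * π * A a) := fun a ha => by
    have h1 : ∀ s, J (R a s) = ∫ t in Ioi (0 : ℝ),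
        Complex.exp (-(((a : ℂ) + (s : ℂ) * Complex.I) * (t : ℂ))) • J (T t x) := fun s => by
      rw [hR, ← J.integral_comp_comm (integrableOn_exp_smul (hcont x) hB ha s)]
      simp only [map_smul]
    simp only [h1]
    rw [laplace_planch hu hB' ha, ← ENNReal.ofReal_mul ha.le, hA]
    congr 1
    ring
  have hcmp : ∀ {E F : Type} [NormedAddCommGroup E] [NormedAddCommGroup F] (f : ℝ → E) (g : ℝ → F)
      (C : ℝ), 0 ≤ C → (∀ s, ‖f s‖ ≤ C * ‖g s‖) → ∀ a : ℝ,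
      ENNReal.ofReal a * ∫⁻ s, ‖f s‖ₑ ^ 2 ≤
        ENNReal.ofReal C ^ 2 * (ENNReal.ofReal a * ∫⁻ s, ‖g s‖ₑ ^ 2) := by
    intro E F _ _ f g C hC h a
    rw [mul_left_comm, ← lintegral_const_mul' _ _ (ENNReal.pow_ne_top ENNReal.ofReal_ne_top)]
    refine mul_le_mul_right (lintegral_mono fun s => ?_) _
    rw [← mul_pow, ← ofReal_norm, ← ofReal_norm, ← ENNReal.ofReal_mul hC]
    exact pow_le_pow_left' (ENNReal.ofReal_le_ofReal (h s)) 2
  change _ ↔ Tendsto (fun a : ℝ => ENNReal.ofReal a * ∫⁻ s : ℝ, ‖R a s‖ₑ ^ 2) _ _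
  constructor
  · intro h
    have h1 := abel_tendsto hu hB' (by
      have h0 := (J.continuous.tendsto 0).comp h
      rw [map_zero] at h0
      exact h0)
    have h2 : Tendsto (fun a => ENNReal.ofReal K ^ 2 * ENNReal.ofReal (2 * π * A a)) (𝓝[>] 0)
        (𝓝 (ENNReal.ofReal K ^ 2 * ENNReal.ofReal (2 * π * 0))) :=
      ENNReal.Tendsto.const_mul (ENNReal.tendsto_ofReal (h1.const_mul _))
        (Or.inr (ENNReal.pow_ne_top ENNReal.ofReal_ne_top))
    rw [mul_zero, ENNReal.ofReal_zero, mul_zero] at h2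
    refine tendsto_of_tendsto_of_tendsto_of_le_of_le' tendsto_const_nhds h2
      (Eventually.of_forall fun _ => bot_le) ?_
    filter_upwards [self_mem_nhdsWithin] with a ha
    rw [← hP a ha]
    exact hcmp _ _ K hK.le (fun s => hJ _) a
  · intro h
    rw [NormedAddGroup.tendsto_nhds_zero]
    intro ε hε
    by_contra hne
    have hc : ∀ t, 0 ≤ t → ε / (M + 1) / K ≤ ‖J (T t x)‖ := fun t ht => by
      rw [div_le_iff₀' hK]
      refine le_trans ?_ (hJ _)
      by_contra h1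
      apply hne
      filter_upwards [eventually_ge_atTop t] with τ hτ
      have h2 : T τ x = T (τ - t) (T t x) := by
        rw [← mul_apply_eq_comp, ← hadd _ _ (sub_nonneg.2 hτ) ht, sub_add_cancel]
      have h3 := (T (τ - t)).le_of_opNorm_le (hM _ (sub_nonneg.2 hτ)) (T t x)
      rw [not_le, lt_div_iff₀ (by positivity)] at h1
      rw [h2]
      nlinarith [norm_nonneg (T t x)]
    have h2 := ENNReal.Tendsto.const_mul (a := ENNReal.ofReal ‖J‖ ^ 2) h
      (Or.inr (ENNReal.pow_ne_top ENNReal.ofReal_ne_top))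
    rw [mul_zero] at h2
    have h3 : ENNReal.ofReal (2 * π * ((ε / (M + 1) / K) ^ 2 / 2)) ≤ 0 := by
      refine ge_of_tendsto h2 ?_
      filter_upwards [self_mem_nhdsWithin] with a ha
      refine le_trans ?_ (hcmp _ _ ‖J‖ (norm_nonneg _) (fun s => J.le_opNorm (R a s)) a)
      rw [hP a ha]
      exact ENNReal.ofReal_le_ofReal (mul_le_mul_of_nonneg_left
        (abel_ge hu hB' (by positivity) hc ha) (by positivity))
    rw [nonpos_iff_eq_zero, ENNReal.ofReal_eq_zero] at h3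
    exact absurd h3 (not_le.2 (by positivity))

end Pool.Agent.Lib.MP_ec63c8_an.HC
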