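import Pool.Agent.Lib.MP_ec63c8_an.HC.Row
import Pool.Agent.Lib.MP_ec63c8_an.HC.Hil

/-!
The three cases, and the transfer to complemented copies.
-/

open Filter Topology MeasureTheory Finset

namespace Pool.Agent.Lib.MP_ec63c8_an.HC

variable {X : Type} [NormedAddCommGroup X] [NormedSpace ℂ X] {p : ENNReal}

lemma exists_row {K a₀ c : ℝ} (hc : 0 < c) (h : ¬ Bd X K a₀) :
    ∃ a : ℝ, 0 < a ∧ a < a₀ ∧ ∃ (M : ℕ) (φ : ℕ → X), (∀ k, M ≤ k → φ k = 0) ∧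
      ∑ k ∈ range M, ‖φ k‖ ^ 2 = c ∧ ∃ v : ℝ, 0 ≤ v ∧
        K * c < a * ∫ s in (0 : ℝ)..v, ∑ k ∈ range M, ‖G M (vv a s)⁻¹ φ k‖ ^ 2 := by
  unfold Bd at h
  push Not at h
  obtain ⟨a, ha, ha₀, M, φ, hφ, v, hv, hlt⟩ := h
  have hsm : ∀ (r : ℝ) (s : ℝ), ∑ k ∈ range M, ‖G M (vv a s)⁻¹ (fun l => (r : ℂ) • φ l) k‖ ^ 2 =
      r ^ 2 * ∑ k ∈ range M, ‖G M (vv a s)⁻¹ φ k‖ ^ 2 := fun r s => by
    rw [Finset.mul_sum]
    refine Finset.sum_congr rfl fun k _ => ?_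
    have h1 : G M (vv a s)⁻¹ (fun l => (r : ℂ) • φ l) k = (r : ℂ) • G M (vv a s)⁻¹ φ k := by
      simp only [G, Finset.smul_sum]
      exact Finset.sum_congr rfl fun n _ => smul_comm _ _ _
    rw [h1, norm_smul, mul_pow, Complex.norm_real, Real.norm_eq_abs, sq_abs]
  have h0 : 0 < ∑ k ∈ range M, ‖φ k‖ ^ 2 := by
    refine lt_of_le_of_ne (Finset.sum_nonneg fun k _ => sq_nonneg _) fun h1 => ?_
    have h2 := (Finset.sum_eq_zero_iff_of_nonneg fun k _ => sq_nonneg _).1 h1.symm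
    have h3 : ∀ k, φ k = 0 := fun k => by
      rcases lt_or_ge k M with hk | hk
      · exact norm_eq_zero.1 ((pow_eq_zero_iff two_ne_zero).1 (h2 k (Finset.mem_range.2 hk)))
      · exact hφ k hk
    simp [G, h3] at hlt
  obtain ⟨r, hr⟩ : ∃ r : ℝ, r ^ 2 = c / ∑ k ∈ range M, ‖φ k‖ ^ 2 :=
    ⟨_, Real.sq_sqrt (by positivity)⟩
  have hr0 : 0 < r ^ 2 := by rw [hr]; positivity
  have hrc : r ^ 2 * ∑ k ∈ range M, ‖φ k‖ ^ 2 = c := by rw [hr, div_mul_cancel₀ _ h0.ne']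
  refine ⟨a, ha, ha₀, M, fun l => (r : ℂ) • φ l, fun k hk => by simp [hφ k hk], ?_, v, hv, ?_⟩
  · rw [← hrc, Finset.mul_sum]
    refine Finset.sum_congr rfl fun k _ => ?_
    rw [norm_smul, mul_pow, Complex.norm_real, Real.norm_eq_abs, sq_abs]
  · simp only [hsm, intervalIntegral.integral_const_mul]
    rw [← hrc]
    nlinarith [mul_lt_mul_of_pos_left hlt hr0]

lemma root_rpow {A c q : ℝ} (hA : 0 ≤ A) (hc : 0 ≤ c) (hq : 0 < q) :
    (A ^ q⁻¹ * c) ^ q = A * c ^ q := by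
  rw [Real.mul_rpow (by positivity) hc, Real.rpow_inv_rpow hA hq.ne']

lemma G_smul (M : ℕ) (z : ℂ) (φ : ℕ → ℂ) (x : X) (k : ℕ) :
    G M z (fun l => φ l • x) k = G M z φ k • x := by
  simp only [G, Finset.sum_smul, smul_assoc]

variable [Fact (1 ≤ p)] [CompleteSpace X]

lemma case_two (hq : 0 < p.toReal) (hp : p.toReal = 2)
    (hX : ¬ ∃ (H : Type) (_ : NormedAddCommGroup H) (_ : InnerProductSpace ℂ H)
      (_ : CompleteSpace H), Nonempty (X ≃L[ℂ] H)) (j : ℕ) :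
    ∃ (a : ℝ) (g : lp (fun _ : ℕ => X) p), 0 < a ∧ a ≤ 1 / ((j : ℝ) + 1) ∧
      ‖g‖ ≤ (1 / 2) ^ j ∧ ENNReal.ofReal j ≤ PP (cmp X hq nx_inj) g a := by
  obtain ⟨a, ha, ha₀, M, φ, hφ, hs, v, hv, hlt⟩ := exists_row (X := X) (K := j * (2 ^ j) ^ 2)
    (a₀ := 1 / ((j : ℝ) + 1)) (c := ((1 / 2) ^ j) ^ 2) (by positivity)
    (fun h => hX (hilbert_of_Bd (by positivity) (by positivity) h))
  obtain ⟨g, hg1, hg2⟩ := exists_arr (p := p) hq 1 M (fun _ => φ) fun _ => hφ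
  simp only [hp, Real.rpow_two, Finset.sum_range_one, hs] at hg2
  refine ⟨a, g, ha, ha₀.le, (pow_le_pow_iff_left₀ (norm_nonneg _) (by positivity)
    two_ne_zero).1 hg2.le, ?_⟩
  rw [mul_assoc, ← mul_pow, ← mul_pow, show (2 : ℝ) * (1 / 2) = 1 by norm_num, one_pow, one_pow,
    mul_one] at hlt
  refine (ENNReal.ofReal_le_ofReal hlt.le).trans ?_
  rw [ENNReal.ofReal_mul ha.le]
  refine mul_le_mul_right ?_ _
  have hc := continuous_sum_G ha M φ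
  rw [intervalIntegral.integral_of_le hv, ofReal_integral_eq_lintegral_ofReal
    (hc.integrableOn_Icc.mono_set Set.Ioc_subset_Icc_self)
    (Eventually.of_forall fun s => Finset.sum_nonneg fun k _ => sq_nonneg _)]
  refine (setLIntegral_le_lintegral _ _).trans (lintegral_mono fun s => ?_)
  rw [coe_nnnorm_sq]
  have h1 := row_le hq ha s (fun k => hg1 0 k one_pos) hφ M
  simp only [hp, Real.rpow_two] at h1
  exact ENNReal.ofReal_le_ofReal h1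

lemma wave_lp (hq : 0 < p.toReal) {N m L : ℕ} (hm : 0 < m) (hmL : m ≤ L)
    (h : L * N ^ 2 ≤ m ^ 2) (x : X) :
    ∃ g : lp (fun _ : ℕ => X) p, ‖g‖ ≤ ((N : ℝ) * m) ^ p.toReal⁻¹ * (3 * ‖x‖) ∧
      ENNReal.ofReal (1 / (4 * L) * (N * (1 / (2 * m)) *
        ((L : ℝ) ^ p.toReal⁻¹ * (m / 6 * ‖x‖)) ^ 2)) ≤ PP (cmp X hq nx_inj) g (1 / (4 * L)) := by
  have hmR : (0 : ℝ) < m := Nat.cast_pos.2 hm
  have hLR : (0 : ℝ) < L := Nat.cast_pos.2 (by omega)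
  have hR : (L : ℝ) * N ^ 2 ≤ m ^ 2 := by exact_mod_cast h
  have ha : (0 : ℝ) < 1 / (4 * L) := by positivity
  obtain ⟨δ, hδ⟩ : ∃ δ : ℝ, δ = 1 / (2 * m) := ⟨_, rfl⟩
  have hδ0 : 0 < δ := by rw [hδ]; positivity
  have hδm : m * δ = 1 / 2 := by rw [hδ]; field_simp
  rw [← hδ]
  have hb : ∀ s : ℝ, 0 ≤ s → s ≤ N * δ →
      ((2 * L : ℕ) : ℝ) * (1 / (4 * L) + s ^ 2 / 2) ≤ 1 := fun s hs0 hs => by
    have h1 : s ^ 2 ≤ (N * δ) ^ 2 := pow_le_pow_left₀ hs0 hs 2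
    have h2 : (L : ℝ) * (N * δ) ^ 2 ≤ (m * δ) ^ 2 := by
      rw [mul_pow, mul_pow, ← mul_assoc]
      exact mul_le_mul_of_nonneg_right hR (sq_nonneg _)
    have h3 := (mul_le_mul_of_nonneg_left h1 hLR.le).trans h2
    have h4 : ((2 * L : ℕ) : ℝ) * (1 / (4 * L) + s ^ 2 / 2) = 1 / 2 + L * s ^ 2 := by
      push_cast
      field_simp
      ring
    rw [hδm] at h3
    rw [h4]
    linarith
  have h0 : ∀ r k : ℕ, 2 * L ≤ k → blk L m (vv (1 / (4 * L)) (r * δ)) k • x = 0 :=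
    fun r k hk => by rw [blk, if_neg (by omega), zero_smul]
  obtain ⟨g, hg1, hg2⟩ := exists_arr (p := p) hq N (2 * L)
    (fun r k => blk L m (vv (1 / (4 * L)) (r * δ)) k • x) h0
  refine ⟨g, ?_, le_PP ha (by positivity) fun s hs0 hs => ?_⟩
  · rw [← Real.rpow_le_rpow_iff (norm_nonneg _) (by positivity) hq,
      root_rpow (by positivity) (by positivity) hq, hg2]
    refine (Finset.sum_le_card_nsmul _ _ (m * (3 * ‖x‖) ^ p.toReal) fun r hr => ?_).trans ?_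
    · have hr' : (r : ℝ) ≤ N := Nat.cast_le.2 (Finset.mem_range.1 hr).le
      rw [← Finset.sum_subset (s₁ := Ico L (L + m))
        (fun n hn => Finset.mem_range.2 (by rw [Finset.mem_Ico] at hn; omega))]
      · refine (Finset.sum_le_card_nsmul _ _ ((3 * ‖x‖) ^ p.toReal) fun k _ => ?_).trans ?_
        · refine Real.rpow_le_rpow (norm_nonneg _) ?_ hq.le
          rw [norm_smul]
          exact mul_le_mul_of_nonneg_right (norm_blk_le ha (M := 2 * L) (by omega)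
            (hb _ (by positivity) (mul_le_mul_of_nonneg_right hr' hδ0.le)) k) (norm_nonneg _)
        · rw [Nat.card_Ico, Nat.add_sub_cancel_left, nsmul_eq_mul]
      · intro n _ hn
        rw [Finset.mem_Ico] at hn
        rw [blk, if_neg hn, zero_smul, norm_zero, Real.zero_rpow hq.ne']
    · rw [Finset.card_range, nsmul_eq_mul, mul_assoc]
  · have h1 : ⌊s / δ⌋₊ < N := (Nat.floor_lt (by positivity)).2 (by rwa [div_lt_iff₀ hδ0])
    have h2 : (⌊s / δ⌋₊ : ℝ) * δ ≤ s := by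
      have := Nat.floor_le (show 0 ≤ s / δ by positivity)
      rwa [le_div_iff₀ hδ0] at this
    have h3 : s - (⌊s / δ⌋₊ : ℝ) * δ ≤ δ := by
      have := (Nat.lt_floor_add_one (s / δ)).le
      rw [div_le_iff₀ hδ0] at this
      linarith
    have h4 := row_le hq ha s (fun k => hg1 _ k h1) (h0 _) L
    rw [← Real.rpow_le_rpow_iff (by positivity) (norm_nonneg _) hq,
      root_rpow (by positivity) (by positivity) hq]
    refine le_trans ?_ h4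
    have h5 := Finset.card_nsmul_le_sum (range L) (fun k => ‖G (2 * L) (vv (1 / (4 * L)) s)⁻¹
      (fun l => blk L m (vv (1 / (4 * L)) (⌊s / δ⌋₊ * δ)) l • x) k‖ ^ p.toReal)
      ((m / 6 * ‖x‖) ^ p.toReal) fun k hk => by
        refine Real.rpow_le_rpow (by positivity) ?_ hq.le
        rw [G_smul, norm_smul]
        exact mul_le_mul_of_nonneg_right (le_norm_G ha (by positivity) h2
          (Finset.mem_range.1 hk).le hm (by omega)
          (by rw [← hδm]; exact mul_le_mul_of_nonneg_left h3 hmR.le) (hb s hs0 hs.le))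
          (norm_nonneg _)
    rwa [Finset.card_range, nsmul_eq_mul] at h5

lemma wave_norm [Nontrivial X] (hq : 0 < p.toReal) {N m L : ℕ} (hN : 0 < N) (hm : 0 < m)
    (hmL : m ≤ L) (h : L * N ^ 2 ≤ m ^ 2) {c : ℝ} (hc : 0 < c) :
    ∃ g : lp (fun _ : ℕ => X) p, ‖g‖ ≤ c ∧
      ENNReal.ofReal (((N : ℝ) * m / L) ^ (1 - 2 / p.toReal) * (c ^ 2 / 2592)) ≤
        PP (cmp X hq nx_inj) g (1 / (4 * L)) := by
  have hNR : (0 : ℝ) < N := Nat.cast_pos.2 hN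
  have hmR : (0 : ℝ) < m := Nat.cast_pos.2 hm
  have hLR : (0 : ℝ) < L := Nat.cast_pos.2 (by omega)
  have hA : 0 < ((N : ℝ) * m) ^ p.toReal⁻¹ := by positivity
  have hB : 0 < (L : ℝ) ^ p.toReal⁻¹ := by positivity
  obtain ⟨x, hx⟩ := exists_norm_eq X (c := c / (3 * ((N : ℝ) * m) ^ p.toReal⁻¹)) (by positivity)
  obtain ⟨g, hg1, hg2⟩ := wave_lp hq hm hmL h x
  refine ⟨g, hg1.trans (le_of_eq (by rw [hx]; field_simp)), le_trans (le_of_eq ?_) hg2⟩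
  congr 1
  have h1 : ((N : ℝ) * m / L) ^ (2 / p.toReal) =
      (((N : ℝ) * m) ^ p.toReal⁻¹ / (L : ℝ) ^ p.toReal⁻¹) ^ 2 := by
    rw [← Real.div_rpow (by positivity) hLR.le, ← Real.rpow_natCast,
      ← Real.rpow_mul (by positivity)]
    congr 1
    push_cast
    ring
  rw [Real.rpow_sub (by positivity), Real.rpow_one, h1, hx]
  field_simp
  ring

lemma exists_big {θ c : ℝ} (hθ : 0 < θ) (hc : 0 < c) (j : ℕ) :
    ∃ n : ℕ, 0 < n ∧ 1 / (4 * ((n ^ 2 : ℕ) : ℝ)) ≤ 1 / ((j : ℝ) + 1) ∧ j ≤ (n : ℝ) ^ θ * c := by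
  have h1 := ((tendsto_rpow_atTop hθ).comp tendsto_natCast_atTop_atTop).atTop_mul_const hc
  obtain ⟨n, hn1, hn2⟩ := ((h1.eventually_ge_atTop j).and (eventually_ge_atTop (j + 1))).exists
  refine ⟨n, by omega, one_div_le_one_div_of_le (by positivity) ?_, hn1⟩
  have h2 : j + 1 ≤ 4 * n ^ 2 := by nlinarith
  exact_mod_cast h2

theorem exists_bad [Nontrivial X] (hq : 0 < p.toReal) (hq1 : 1 ≤ p.toReal)
    (hX : ¬ (p = 2 ∧ ∃ (H : Type) (_ : NormedAddCommGroup H) (_ : InnerProductSpace ℂ H)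
      (_ : CompleteSpace H), Nonempty (X ≃L[ℂ] H))) :
    ∃ f : lp (fun _ : ℕ => X) p, limsup (PP (cmp X hq nx_inj) f) (𝓝[>] (0 : ℝ)) = ⊤ := by
  refine glue hq hq1 fun j => ?_
  rcases lt_trichotomy p.toReal 2 with h | h | h
  · obtain ⟨n, hn0, hn1, hn2⟩ := exists_big (θ := 2 / p.toReal - 1)
      (c := ((1 / 2) ^ j) ^ 2 / 2592) (by rw [sub_pos, one_lt_div hq]; exact h) (by positivity) j
    have hnR : (0 : ℝ) < n := Nat.cast_pos.2 hn0
    obtain ⟨g, hg1, hg2⟩ := wave_norm (X := X) hq (N := 1) (m := n) (L := n ^ 2) one_pos hn0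
      (by nlinarith) (by simp) (c := (1 / 2) ^ j) (by positivity)
    refine ⟨_, g, by positivity, hn1, hg1, le_trans (ENNReal.ofReal_le_ofReal
      (hn2.trans (le_of_eq ?_))) hg2⟩
    have h1 : ((1 : ℕ) : ℝ) * n / ((n ^ 2 : ℕ) : ℝ) = (n : ℝ)⁻¹ := by
      push_cast
      field_simp
    rw [h1, Real.inv_rpow hnR.le, ← Real.rpow_neg hnR.le, neg_sub]
  · refine case_two hq h (fun hH => hX ⟨?_, hH⟩) j
    rw [← ENNReal.ofReal_toReal (ENNReal.toReal_pos_iff.1 hq).2.ne, h]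
    simp
  · obtain ⟨n, hn0, hn1, hn2⟩ := exists_big (θ := 1 - 2 / p.toReal)
      (c := ((1 / 2) ^ j) ^ 2 / 2592) (by rw [sub_pos, div_lt_one hq]; exact h) (by positivity) j
    have hnR : (0 : ℝ) < n := Nat.cast_pos.2 hn0
    obtain ⟨g, hg1, hg2⟩ := wave_norm (X := X) hq (N := n) (m := n ^ 2) (L := n ^ 2) hn0
      (by positivity) le_rfl (le_of_eq (by ring)) (c := (1 / 2) ^ j) (by positivity)
    refine ⟨_, g, by positivity, hn1, hg1, le_trans (ENNReal.ofReal_le_ofReal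
      (hn2.trans (le_of_eq ?_))) hg2⟩
    rw [mul_div_assoc, div_self (by positivity), mul_one]

section Compl

variable {E Y : Type} [NormedAddCommGroup E] [NormedSpace ℂ E] [NormedAddCommGroup Y]
  [NormedSpace ℂ Y] {J : E →L[ℂ] Y} {Q : Y →L[ℂ] E}

lemma conj_pow (hQJ : ∀ f, Q (J f) = f) (S : E →L[ℂ] E) (n : ℕ) (y : Y) :
    ((J ∘L S ∘L Q) ^ (n + 1)) y = J ((S ^ (n + 1)) (Q y)) := by
  induction n with
  | zero => rfl
  | succ n ih =>
    rw [pow_succ', mul_apply_eq_comp, ih, pow_succ' S (n + 1), mul_apply_eq_comp]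
    simp only [ContinuousLinearMap.comp_apply, hQJ]

lemma one_le_norm_mul [Nontrivial E] (hQJ : ∀ f, Q (J f) = f) : 1 ≤ ‖J‖ * ‖Q‖ := by
  obtain ⟨f, hf⟩ := exists_ne (0 : E)
  have h1 := Q.le_opNorm_of_le (J.le_opNorm f)
  rw [hQJ] at h1
  refine le_of_mul_le_mul_right ?_ (norm_pos_iff.2 hf)
  linarith

lemma conj_bound [Nontrivial E] (hQJ : ∀ f, Q (J f) = f) {S : E →L[ℂ] E} (hS : ‖S‖ ≤ 1) (n : ℕ) :
    ‖(J ∘L S ∘L Q) ^ n‖ ≤ ‖J‖ * ‖Q‖ := by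
  cases n with
  | zero => exact ContinuousLinearMap.norm_id_le.trans (one_le_norm_mul hQJ)
  | succ n =>
    refine ContinuousLinearMap.opNorm_le_bound _ (by positivity) fun y => ?_
    rw [conj_pow hQJ, mul_assoc]
    refine J.le_opNorm_of_le (le_trans ?_ (Q.le_opNorm y))
    have h := (S ^ (n + 1)).le_of_opNorm_le (norm_pow_le_one hS _) (Q y)
    rwa [one_mul] at h

lemma conj_dense (hQJ : ∀ f, Q (J f) = f) {S : E →L[ℂ] E}
    (hd : ∀ (g : E) (ε : ℝ), 0 < ε → ∃ (f : E) (n : ℕ), (S ^ n) f = 0 ∧ ‖g - f‖ < ε)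
    (y : Y) (ε : ℝ) (hε : 0 < ε) :
    ∃ (f : Y) (n : ℕ), ((J ∘L S ∘L Q) ^ n) f = 0 ∧ ‖y - f‖ < ε := by
  obtain ⟨f, n, hn, hf⟩ := hd (Q y) (ε / (‖J‖ + 1)) (by positivity)
  refine ⟨y - J (Q y - f), n + 1, ?_, ?_⟩
  · rw [conj_pow hQJ, map_sub Q, hQJ, sub_sub_cancel, pow_succ', mul_apply_eq_comp, hn, map_zero,
      map_zero]
  · rw [sub_sub_cancel]
    rw [lt_div_iff₀ (by positivity)] at hf
    nlinarith [J.le_opNorm (Q y - f), norm_nonneg (Q y - f)]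

lemma conj_limsup [Nontrivial E] [CompleteSpace E] [CompleteSpace Y] (hQJ : ∀ f, Q (J f) = f)
    {S : E →L[ℂ] E} (hS : ‖S‖ ≤ 1) {f : E} (hf : limsup (PP S f) (𝓝[>] (0 : ℝ)) = ⊤) :
    limsup (PP (J ∘L S ∘L Q) (J f)) (𝓝[>] (0 : ℝ)) = ⊤ := by
  have h1 : limsup (PP S f) (𝓝[>] (0 : ℝ)) ≤
      limsup (fun a => ENNReal.ofReal (‖Q‖ ^ 2) * PP (J ∘L S ∘L Q) (J f) a) (𝓝[>] (0 : ℝ)) := by
    refine limsup_le_limsup ?_
    filter_upwards [self_mem_nhdsWithin] with a ha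
    have h2 := PP_map_le (conj_bound hQJ hS) hS Q (fun y => by
      simp only [ContinuousLinearMap.comp_apply, hQJ]) le_rfl ha (J f)
    rwa [hQJ] at h2
  rw [hf, ENNReal.limsup_const_mul_of_ne_top ENNReal.ofReal_ne_top, top_le_iff,
    ENNReal.mul_eq_top] at h1
  rcases h1 with h1 | h1
  · exact h1.2
  · exact absurd h1.1 ENNReal.ofReal_ne_top

end Compl

omit [NormedSpace ℂ X] [Fact (1 ≤ p)] [CompleteSpace X] in
lemma nontrivial_lp [Nontrivial X] : Nontrivial (lp (fun _ : ℕ => X) p) := by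
  obtain ⟨x, hx⟩ := exists_ne (0 : X)
  refine ⟨lp.single p 0 x, 0, fun h => hx ?_⟩
  have h1 := congrArg (fun g : lp (fun _ : ℕ => X) p => g 0) h
  simpa [lp.single_apply] using h1

omit [CompleteSpace X] [Fact (1 ≤ p)] in
lemma embed_two {H : Type} [NormedAddCommGroup H] [InnerProductSpace ℂ H] (e : X ≃L[ℂ] H) :
    ∃ (J : lp (fun _ : ℕ => X) 2 →L[ℂ] lp (fun _ : ℕ => H) 2) (K : ℝ), 0 < K ∧
      ∀ y, ‖y‖ ≤ K * ‖J y‖ := by
  refine ⟨lp.mapCLM 2 (fun _ => (e : X →L[ℂ] H)) (norm_nonneg _) fun _ => le_rfl,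
    ‖(e.symm : H →L[ℂ] X)‖ + 1, by positivity, fun y => ?_⟩
  have h1 := (lp.mapCLM 2 (fun _ : ℕ => (e.symm : H →L[ℂ] X)) (norm_nonneg _)
    fun _ => le_rfl).le_of_opNorm_le (lp.norm_mapCLM_le _ _ _ _)
      (lp.mapCLM 2 (fun _ : ℕ => (e : X →L[ℂ] H)) (norm_nonneg _) (fun _ => le_rfl) y)
  have h2 : lp.mapCLM 2 (fun _ : ℕ => (e.symm : H →L[ℂ] X)) (norm_nonneg _) (fun _ => le_rfl)
      (lp.mapCLM 2 (fun _ : ℕ => (e : X →L[ℂ] H)) (norm_nonneg _) (fun _ => le_rfl) y) = y :=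
    lp.ext (funext fun i => e.symm_apply_apply (y i))
  rw [h2] at h1
  exact h1.trans (mul_le_mul_of_nonneg_right (by linarith) (norm_nonneg _))

end Pool.Agent.Lib.MP_ec63c8_an.HC
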