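import Pool.Agent.Lib.MP_ec63c8_an.HC.Defs
import Pool.Agent.Lib.MP_ec63c8_an.HC.Main
import Pool.Agent.Lib.MP_ec63c8_an.HC.Emb

/-!
Assembly.
-/

open Filter Topology MeasureTheory Function

namespace Pool.Agent.Lib.MP_ec63c8_an.HC

lemma FailsOn.mono {Y : Type} [NormedAddCommGroup Y] [NormedSpace ℂ Y] {C D : ℝ}
    (h : FailsOn Y C) (hCD : C ≤ D) : FailsOn Y D := by
  obtain ⟨T, h0, h1, h2, h3, h4⟩ := h
  exact ⟨T, h0, h1, h2, fun t ht => (h3 t ht).trans hCD, h4⟩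

lemma FailsOn.not_holdsOn {Y : Type} [NormedAddCommGroup Y] [NormedSpace ℂ Y] {C : ℝ}
    (h : FailsOn Y C) : ¬ HoldsOn Y := by
  obtain ⟨T, h0, h1, h2, h3, h4, g, hg⟩ := h
  intro hH
  have h5 := (hH T h0 (fun s t _ _ => h1 s t)
    (fun x => (h2.clm_apply continuous_const).continuousOn) ⟨C, h3⟩ g).1 (h4 g).1
  rw [h5.limsup_eq] at hg
  exact ENNReal.zero_ne_top hg

variable {X : Type} [NormedAddCommGroup X] [NormedSpace ℂ X] [CompleteSpace X] [Nontrivial X]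
  {p : ENNReal} [Fact (1 ≤ p)]

theorem fails_compl (hp : p ≠ ⊤) (hX : ¬ (p = 2 ∧ Hilbertian X)) (Y : Type)
    [NormedAddCommGroup Y] [NormedSpace ℂ Y] [CompleteSpace Y]
    (J : lp (fun _ : ℕ => X) p →L[ℂ] Y) (Q : Y →L[ℂ] lp (fun _ : ℕ => X) p)
    (hQJ : ∀ f, Q (J f) = f) : FailsOn Y (‖J‖ * ‖Q‖) := by
  have hq1 : 1 ≤ p.toReal := by
    rw [← ENNReal.toReal_one]
    exact ENNReal.toReal_mono hp Fact.out
  have hq : 0 < p.toReal := by linarith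
  have := nontrivial_lp (X := X) (p := p)
  obtain ⟨f, hf⟩ := exists_bad hq hq1 hX
  have hS := norm_cmp_le (X := X) hq nx_inj
  have hB := conj_bound hQJ hS
  exact ⟨sg (J ∘L cmp X hq nx_inj ∘L Q), sg_zero _, sg_add _, continuous_sg _,
    fun t ht => norm_sg_le hB ht,
    fun g => ⟨tendsto_sg hB (conj_dense hQJ (dense_nil hq)) g,
      fun a ha s => integrableOn_lap hB ha s g, fun a ha => lintegral_res_lt_top hB ha g⟩,
    J f, conj_limsup hQJ hS hf⟩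

theorem fails_lp (hp : p ≠ ⊤) (hX : ¬ (p = 2 ∧ Hilbertian X)) :
    FailsOn (lp (fun _ : ℕ => X) p) 1 :=
  (fails_compl hp hX _ (ContinuousLinearMap.id ℂ _) (ContinuousLinearMap.id ℂ _)
    fun _ => rfl).mono (mul_le_one₀ ContinuousLinearMap.norm_id_le (norm_nonneg _)
      ContinuousLinearMap.norm_id_le)

theorem iff_lp (hp : p ≠ ⊤) : HoldsOn (lp (fun _ : ℕ => X) p) ↔ p = 2 ∧ Hilbertian X := by
  refine ⟨fun h => by_contra fun hX => (fails_lp hp hX).not_holdsOn h, ?_⟩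
  rintro ⟨rfl, H, _, _, _, ⟨e⟩⟩ T _ h1 h2 h3 x
  obtain ⟨J, K, hK, hJ⟩ := embed_two e
  exact hilbert_case J hK hJ T h1 h2 h3 x

variable {Ω : Type} [MeasurableSpace Ω] {μ : Measure Ω}

theorem fails_Lp (hp : p ≠ ⊤) (hX : ¬ (p = 2 ∧ Hilbertian X))
    (hμ : ∃ A : ℕ → Set Ω, (∀ n, MeasurableSet (A n)) ∧ Pairwise (Disjoint on A) ∧
      ∀ n, 0 < μ (A n) ∧ μ (A n) < ⊤) : FailsOn (Lp X p μ) 1 := by
  obtain ⟨A, hm, hd, h0⟩ := hμ
  obtain ⟨J, Q, hQJ, hJ, hQ⟩ := exists_emb (X := X) hp hm hd (fun n => (h0 n).1.ne')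
    fun n => (h0 n).2.ne
  exact (fails_compl hp hX _ J Q hQJ).mono (mul_le_one₀ hJ (norm_nonneg _) hQ)

theorem iff_Lp (hp : p ≠ ⊤)
    (hμ : ∃ A : ℕ → Set Ω, (∀ n, MeasurableSet (A n)) ∧ Pairwise (Disjoint on A) ∧
      ∀ n, 0 < μ (A n) ∧ μ (A n) < ⊤) : HoldsOn (Lp X p μ) ↔ p = 2 ∧ Hilbertian X := by
  refine ⟨fun h => by_contra fun hX => (fails_Lp hp hX hμ).not_holdsOn h, ?_⟩
  rintro ⟨rfl, H, _, _, _, ⟨e⟩⟩ T _ h1 h2 h3 x
  obtain ⟨J, K, hK, hJ⟩ := embed_Lp_two (μ := μ) e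
  exact hilbert_case J hK hJ T h1 h2 h3 x

end Pool.Agent.Lib.MP_ec63c8_an.HC
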