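import Pool.Agent.Lib.MP_ec63c8_an.HC.Final

/-!
The statement of the earlier hand-in on `L^p` of the unit square follows from `fails_Lp`, now for
every `p ≠ 2` with `1 ≤ p < ∞`.
-/

open Filter Topology MeasureTheory

namespace Pool.Agent.Lib.MP_ec63c8_an.HC

lemma square_sets : ∃ A : ℕ → Set (unitInterval × unitInterval), (∀ n, MeasurableSet (A n)) ∧
    Pairwise (Function.onFun Disjoint A) ∧ ∀ n, 0 < volume (A n) ∧ volume (A n) < ⊤ := by
  have hb : ∀ n : ℕ, 1 / ((n : ℝ) + 1) ∈ unitInterval := fun n =>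
    ⟨by positivity, by rw [div_le_one (by positivity)]; linarith [Nat.cast_nonneg (α := ℝ) n]⟩
  have hlt : ∀ m n : ℕ, m < n → 1 / ((n : ℝ) + 1) < 1 / ((m : ℝ) + 1) := fun m n h =>
    one_div_lt_one_div_of_lt (by positivity) (by linarith [(Nat.cast_lt (α := ℝ)).2 h])
  refine ⟨fun n => Set.Ioo ⟨_, hb (n + 1)⟩ ⟨_, hb n⟩ ×ˢ Set.univ,
    fun n => measurableSet_Ioo.prod MeasurableSet.univ, ?_, fun n => ⟨?_, measure_lt_top _ _⟩⟩
  · refine (Std.Symm.pairwise_on (r := Disjoint) _).2 fun m n h => ?_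
    refine Set.disjoint_left.2 fun x h1 h2 => ?_
    have h3 : 1 / (((m + 1 : ℕ) : ℝ) + 1) < x.1 := h1.1.1
    have h4 : (x.1 : ℝ) < 1 / ((n : ℝ) + 1) := h2.1.2
    rcases (Nat.succ_le_of_lt h).eq_or_lt with h5 | h5
    · rw [← h5] at h4
      exact lt_asymm h3 h4
    · exact lt_asymm h3 (h4.trans (hlt _ _ h5))
  · rw [Measure.volume_eq_prod, Measure.prod_prod, measure_univ, mul_one, unitInterval.volume_Ioo,
      ENNReal.ofReal_pos, sub_pos]
    exact hlt _ _ (Nat.lt_succ_self n)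

theorem square_fails (p : ENNReal) [Fact (1 ≤ p)] (hp2 : p ≠ 2) (hp : p ≠ ⊤) :
    ∃ T : ℝ → (Lp ℂ p (volume : Measure (unitInterval × unitInterval)) →L[ℂ]
        Lp ℂ p (volume : Measure (unitInterval × unitInterval))),
      T 0 = 1 ∧
      (∀ s t : ℝ, T (s + t) = T s * T t) ∧
      Continuous T ∧
      (∀ t : ℝ, 0 ≤ t → ‖T t‖ ≤ 1) ∧
      (∀ g : Lp ℂ p (volume : Measure (unitInterval × unitInterval)),
        Tendsto (fun t : ℝ => T t g) atTop (𝓝 0) ∧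
        (∀ a : ℝ, 0 < a → ∀ s : ℝ, IntegrableOn (fun t : ℝ =>
          Complex.exp (-(((a : ℂ) + (s : ℂ) * Complex.I) * (t : ℂ))) • T t g)
          (Set.Ioi (0 : ℝ))) ∧
        (∀ a : ℝ, 0 < a →
          ∫⁻ s : ℝ, ((‖∫ t in Set.Ioi (0 : ℝ),
            Complex.exp (-(((a : ℂ) + (s : ℂ) * Complex.I) * (t : ℂ))) • T t g‖₊ : ENNReal)) ^ 2
          < ⊤)) ∧
      ∃ g : Lp ℂ p (volume : Measure (unitInterval × unitInterval)),
        ¬ Tendsto
          (fun a : ℝ => ENNReal.ofReal a *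
            ∫⁻ s : ℝ, ((‖∫ t in Set.Ioi (0 : ℝ),
              Complex.exp (-(((a : ℂ) + (s : ℂ) * Complex.I) * (t : ℂ))) • T t g‖₊ :
                ENNReal)) ^ 2)
          (𝓝[>] (0 : ℝ)) (𝓝 0) := by
  obtain ⟨T, h0, h1, h2, h3, h4, g, hg⟩ :=
    fails_Lp (X := ℂ) hp (fun h => hp2 h.1) square_sets
  refine ⟨T, h0, h1, h2, h3, h4, g, fun h => ?_⟩
  exact ENNReal.zero_ne_top (h.limsup_eq.symm.trans hg)

end Pool.Agent.Lib.MP_ec63c8_an.HC
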