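import Pool.Agent.Lib.MP_f92ad0_an.MepG

/-!
Type 2 and cotype 2 give an equivalent Hilbert norm (Kwapien), through the
Lindenstrauss-Pelczynski separation argument.
-/

open Finset Pool.Agent.Lib.MP_f92ad0_an.Mep
open scoped BigOperators

namespace Pool.Agent.Lib.MP_ec63c8_an.HC

variable {X : Type} [NormedAddCommGroup X] [NormedSpace ℂ X]

lemma contr_re {α β : Type*} [Fintype α] [Fintype β] {c : β → α → ℂ} (hc : Contr c) :
    Contr fun b a => (c b a).re := fun v => by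
  refine le_trans (Finset.sum_le_sum fun b _ => ?_) ((hc fun a => (v a : ℂ)).trans (by simp))
  refine pow_le_pow_left₀ (norm_nonneg _) (le_trans (le_of_eq ?_) (Complex.abs_re_le_norm _)) 2
  simp

lemma contr_im {α β : Type*} [Fintype α] [Fintype β] {c : β → α → ℂ} (hc : Contr c) :
    Contr fun b a => (c b a).im := fun v => by
  refine le_trans (Finset.sum_le_sum fun b _ => ?_) ((hc fun a => (v a : ℂ)).trans (by simp))
  refine pow_le_pow_left₀ (norm_nonneg _) (le_trans (le_of_eq ?_) (Complex.abs_im_le_norm _)) 2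
  simp

lemma smul_split (c : ℂ) (y : X) : c • y = c.re • y + Complex.I • (c.im • y) := by
  conv_lhs => rw [← Complex.re_add_im c]
  rw [add_smul, mul_comm, mul_smul, Complex.coe_smul, Complex.coe_smul]

lemma rinv_complex {C : ℝ} (h : RInv ℝ X C) : RInv ℂ X (2 * C) := by
  intro α β _ _ _ _ c hc y
  have h1 := h α β _ (contr_re hc) y
  have h2 := h α β _ (contr_im hc) y
  have h3 : (fun b => ∑ a, c b a • y a) = fun b => (∑ a, (c b a).re • y a) +
      Complex.I • ∑ a, (c b a).im • y a := by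
    funext b
    rw [Finset.smul_sum, ← Finset.sum_add_distrib]
    exact Finset.sum_congr rfl fun a _ => smul_split _ _
  rw [h3]
  refine (R2_add_le _ _).trans ?_
  rw [R2_smul, Complex.norm_I]
  nlinarith

/-- Complex contraction principle. -/
lemma R2_csmul_le {ι : Type*} [Fintype ι] [DecidableEq ι] (c : ι → ℂ) (hc : ∀ i, ‖c i‖ ≤ 1)
    (x : ι → X) : R2 (fun i => c i • x i) ≤ 4 * R2 x := by
  have h1 := R2_smul_le (fun i => (c i).re) (fun i => (Complex.abs_re_le_norm _).trans (hc i)) x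
  have h2 := R2_smul_le (fun i => (c i).im) (fun i => (Complex.abs_im_le_norm _).trans (hc i)) x
  have h3 : (fun i => c i • x i) = fun i => (c i).re • x i + Complex.I • ((c i).im • x i) :=
    funext fun i => smul_split _ _
  rw [h3]
  refine (R2_add_le _ _).trans ?_
  rw [R2_smul, Complex.norm_I]
  nlinarith

/-- Domination of finite families for all linear functionals gives domination of the norms. -/
def LP (X : Type) [NormedAddCommGroup X] [NormedSpace ℂ X] (C : ℝ) : Prop :=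
  ∀ (α β : Type) [Fintype α] [Fintype β] (x : α → X) (y : β → X),
    (∀ ξ : X →ₗ[ℂ] ℂ, ∑ a, ‖ξ (x a)‖ ^ 2 ≤ ∑ b, ‖ξ (y b)‖ ^ 2) →
      ∑ a, ‖x a‖ ^ 2 ≤ C * ∑ b, ‖y b‖ ^ 2

/-- The coefficient map of a finite family. -/
noncomputable def co {α : Type} [Fintype α] (x : α → X) :
    (X →ₗ[ℂ] ℂ) →ₗ[ℂ] EuclideanSpace ℂ α where
  toFun ξ := WithLp.toLp 2 fun a => ξ (x a)
  map_add' ξ η := by ext a; simp
  map_smul' c ξ := by ext a; simp

lemma norm_co_sq {α : Type} [Fintype α] (x : α → X) (ξ : X →ₗ[ℂ] ℂ) :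
    ‖co x ξ‖ ^ 2 = ∑ a, ‖ξ (x a)‖ ^ 2 := by
  rw [EuclideanSpace.norm_sq_eq]
  rfl

lemma exists_contr {α β : Type} [Fintype α] [Fintype β] (x : α → X) (y : β → X)
    (h : ∀ ξ : X →ₗ[ℂ] ℂ, ∑ a, ‖ξ (x a)‖ ^ 2 ≤ ∑ b, ‖ξ (y b)‖ ^ 2) :
    ∃ c : α → β → ℂ, Contr c ∧ ∀ a, x a = ∑ b, c a b • y b := by
  classical
  have hn : ∀ ξ, ‖co x ξ‖ ≤ ‖co y ξ‖ := fun ξ =>
    (pow_le_pow_iff_left₀ (norm_nonneg _) (norm_nonneg _) two_ne_zero).1
      (by rw [norm_co_sq, norm_co_sq]; exact h ξ)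
  obtain ⟨r, hr⟩ := (co y).rangeRestrict.exists_rightInverse_of_surjective
    (LinearMap.range_rangeRestrict _)
  have hr' : ∀ v : LinearMap.range (co y), co y (r v) = v := fun v =>
    congrArg Subtype.val (LinearMap.congr_fun hr v)
  set P := (LinearMap.range (co y)).orthogonalProjectionOnto with hP
  set T : EuclideanSpace ℂ β →ₗ[ℂ] EuclideanSpace ℂ α := co x ∘ₗ r ∘ₗ P.toLinearMap with hT
  have hT1 : ∀ v, ‖T v‖ ≤ ‖v‖ := fun v => by
    calc ‖T v‖ = ‖co x (r (P v))‖ := rfl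
      _ ≤ ‖co y (r (P v))‖ := hn _
      _ = ‖P v‖ := by rw [hr']; rfl
      _ ≤ ‖v‖ := Submodule.norm_orthogonalProjectionOnto_apply_le _ _
  have hT2 : ∀ ξ, T (co y ξ) = co x ξ := fun ξ => by
    have h1 : P (co y ξ) = ⟨co y ξ, LinearMap.mem_range_self _ _⟩ :=
      Submodule.orthogonalProjectionOnto_mem_subspace_eq_self
        (⟨co y ξ, LinearMap.mem_range_self _ _⟩ : LinearMap.range (co y))
    have h2 := hn (r (P (co y ξ)) - ξ)
    rw [map_sub, map_sub, hr', h1, sub_self, norm_zero] at h2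
    have h3 := sub_eq_zero.1 (norm_le_zero_iff.1 h2)
    rw [← h3, ← h1]
    rfl
  have hT3 : ∀ (v : β → ℂ) (a : α),
      T (WithLp.toLp 2 v) a = ∑ b, T (EuclideanSpace.single b 1) a * v b := fun v a => by
    have h1 : (WithLp.toLp 2 v : EuclideanSpace ℂ β) =
        ∑ b, v b • EuclideanSpace.single b (1 : ℂ) := by
      ext b
      simp [Pi.single_apply]
    rw [h1, map_sum]
    simp [mul_comm]
  refine ⟨fun a b => T (EuclideanSpace.single b 1) a, fun v => ?_, fun a => ?_⟩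
  · have h1 := pow_le_pow_left₀ (norm_nonneg _) (hT1 (WithLp.toLp 2 v)) 2
    rw [EuclideanSpace.norm_sq_eq, EuclideanSpace.norm_sq_eq] at h1
    exact le_trans (le_of_eq (Finset.sum_congr rfl fun a _ => by rw [hT3])) h1
  · rw [← sub_eq_zero, ← Module.forall_dual_apply_eq_zero_iff ℂ]
    intro ξ
    have h1 : T (co y ξ) a = ξ (x a) := by rw [hT2]; rfl
    have h2 := hT3 (fun b => ξ (y b)) a
    rw [map_sub, map_sum, ← h1, sub_eq_zero]
    simp only [map_smul, smul_eq_mul]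
    exact h2

lemma exists_LP {K : ℝ}
    (ht : ∀ (n : ℕ) (x : Fin n → X), R2 x ≤ K * ∑ i, ‖x i‖ ^ 2)
    (hc : ∀ (n : ℕ) (x : Fin n → X), ∑ i, ‖x i‖ ^ 2 ≤ K * R2 x) (hK : 0 ≤ K) :
    ∃ C, 0 ≤ C ∧ LP X C := by
  classical
  obtain ⟨k, hk⟩ := exists_nat_gt (4 * K)
  have hk0 : 0 < k := Nat.cast_pos.1 (lt_of_le_of_lt (by positivity) hk)
  obtain ⟨C, hC0, hC⟩ := rinv_real (W := X) hk0 fun w =>
    (hc k w).trans (mul_le_mul_of_nonneg_right (by linarith) (R2_nonneg _))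
  refine ⟨K * ((2 * C) ^ 2 * K), by positivity, fun α β _ _ x y h => ?_⟩
  obtain ⟨c, hc1, hc2⟩ := exists_contr x y h
  have h1 := rinv_complex hC β α c hc1 y
  have h2 : (fun a => ∑ b, c a b • y b) = x := funext fun a => (hc2 a).symm
  rw [h2] at h1
  have h3 := hc _ fun i => x ((Fintype.equivFin α).symm i)
  rw [R2_equiv, Equiv.sum_comp (Fintype.equivFin α).symm fun a => ‖x a‖ ^ 2] at h3
  have h4 := ht _ fun i => y ((Fintype.equivFin β).symm i)
  rw [R2_equiv, Equiv.sum_comp (Fintype.equivFin β).symm fun b => ‖y b‖ ^ 2] at h4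
  calc ∑ a, ‖x a‖ ^ 2 ≤ K * R2 x := h3
    _ ≤ K * ((2 * C) ^ 2 * R2 y) := by gcongr
    _ ≤ K * ((2 * C) ^ 2 * (K * ∑ b, ‖y b‖ ^ 2)) := by gcongr
    _ = _ := by ring

/-- The values whose infimum is the sublinear functional. -/
def Val (C : ℝ) (v : (X →ₗ[ℂ] ℂ) → ℝ) : Set ℝ :=
  {r | ∃ (α β : Type) (_ : Fintype α) (_ : Fintype β) (x : α → X) (y : β → X),
    (∀ ξ : X →ₗ[ℂ] ℂ, v ξ + ∑ a, ‖ξ (x a)‖ ^ 2 ≤ ∑ b, ‖ξ (y b)‖ ^ 2) ∧
      r = C * ∑ b, ‖y b‖ ^ 2 - ∑ a, ‖x a‖ ^ 2}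

lemma Val.add {C r r' : ℝ} {v v' : (X →ₗ[ℂ] ℂ) → ℝ} (h : r ∈ Val C v) (h' : r' ∈ Val C v') :
    r + r' ∈ Val C (v + v') := by
  obtain ⟨α, β, _, _, x, y, h1, rfl⟩ := h
  obtain ⟨α', β', _, _, x', y', h1', rfl⟩ := h'
  refine ⟨α ⊕ α', β ⊕ β', inferInstance, inferInstance, Sum.elim x x', Sum.elim y y',
    fun ξ => ?_, ?_⟩
  · simp only [Fintype.sum_sum_type, Sum.elim_inl, Sum.elim_inr, Pi.add_apply]
    linarith [h1 ξ, h1' ξ]
  · simp only [Fintype.sum_sum_type, Sum.elim_inl, Sum.elim_inr]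
    ring

lemma Val.smul {C r c : ℝ} {v : (X →ₗ[ℂ] ℂ) → ℝ} (hc : 0 ≤ c) (h : r ∈ Val C v) :
    c * r ∈ Val C (c • v) := by
  obtain ⟨α, β, _, _, x, y, h1, rfl⟩ := h
  have h2 : ‖((√c : ℝ) : ℂ)‖ ^ 2 = c := by
    rw [Complex.norm_real, Real.norm_of_nonneg (Real.sqrt_nonneg _), Real.sq_sqrt hc]
  refine ⟨α, β, inferInstance, inferInstance, fun a => ((√c : ℝ) : ℂ) • x a,
    fun b => ((√c : ℝ) : ℂ) • y b, fun ξ => ?_, ?_⟩
  · simp only [map_smul, norm_smul, mul_pow, h2, ← Finset.mul_sum, Pi.smul_apply]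
    rw [smul_eq_mul, ← mul_add]
    exact mul_le_mul_of_nonneg_left (h1 ξ) hc
  · simp only [norm_smul, mul_pow, h2, ← Finset.mul_sum]
    ring

lemma Val.nonneg {C r : ℝ} (hC : LP X C) (h : r ∈ Val C (0 : (X →ₗ[ℂ] ℂ) → ℝ)) : 0 ≤ r := by
  obtain ⟨α, β, _, _, x, y, h1, rfl⟩ := h
  exact sub_nonneg.2 (hC α β x y fun ξ => by simpa using h1 ξ)

/-- The quadratic function attached to a vector. -/
noncomputable def qq (x : X) : (X →ₗ[ℂ] ℂ) → ℝ := fun ξ => ‖ξ x‖ ^ 2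

lemma mem_Val_qq (C : ℝ) (y : X) : C * ‖y‖ ^ 2 ∈ Val C (qq y) :=
  ⟨Empty, Unit, inferInstance, inferInstance, Empty.elim, fun _ => y, fun ξ => by simp [qq],
    by simp⟩

lemma mem_Val_neg_qq (C : ℝ) (x : X) : -‖x‖ ^ 2 ∈ Val C (-qq x) :=
  ⟨Unit, Empty, inferInstance, inferInstance, fun _ => x, Empty.elim, fun ξ => by simp [qq],
    by simp⟩

/-- The space on which the sublinear functional is finite. -/
def Dom (X : Type) [NormedAddCommGroup X] [NormedSpace ℂ X] (C : ℝ) :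
    Submodule ℝ ((X →ₗ[ℂ] ℂ) → ℝ) where
  carrier := {v | (Val C v).Nonempty ∧ (Val C (-v)).Nonempty}
  add_mem' := by
    rintro v v' ⟨⟨r, hr⟩, ⟨s, hs⟩⟩ ⟨⟨r', hr'⟩, ⟨s', hs'⟩⟩
    exact ⟨⟨_, Val.add hr hr'⟩, ⟨_, by rw [neg_add]; exact Val.add hs hs'⟩⟩
  zero_mem' := by
    have h : (0 : ℝ) * (C * ‖(0 : X)‖ ^ 2) ∈ Val C ((0 : ℝ) • qq (0 : X)) :=
      Val.smul le_rfl (mem_Val_qq C 0)
    rw [zero_smul] at h
    exact ⟨⟨_, h⟩, ⟨_, by rw [neg_zero]; exact h⟩⟩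
  smul_mem' := by
    rintro c v ⟨⟨r, hr⟩, ⟨s, hs⟩⟩
    rcases le_total 0 c with hc | hc
    · exact ⟨⟨_, Val.smul hc hr⟩, ⟨_, by rw [← smul_neg]; exact Val.smul hc hs⟩⟩
    · refine ⟨⟨-c * s, ?_⟩, ⟨_, by rw [← neg_smul]; exact Val.smul (neg_nonneg.2 hc) hr⟩⟩
      rw [← neg_smul_neg]
      exact Val.smul (neg_nonneg.2 hc) hs

lemma qq_mem (C : ℝ) (x : X) : qq x ∈ Dom X C := ⟨⟨_, mem_Val_qq C x⟩, ⟨_, mem_Val_neg_qq C x⟩⟩

lemma exists_functional {C : ℝ} (hC : LP X C) : ∃ Λ : Dom X C →ₗ[ℝ] ℝ,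
    ∀ x : X, ‖x‖ ^ 2 ≤ Λ ⟨qq x, qq_mem C x⟩ ∧ Λ ⟨qq x, qq_mem C x⟩ ≤ C * ‖x‖ ^ 2 := by
  have hb : ∀ v : Dom X C, BddBelow (Val C v.1) := fun v => by
    obtain ⟨s, hs⟩ := v.2.2
    refine ⟨-s, fun r hr => ?_⟩
    have h := Val.add hr hs
    rw [add_neg_cancel] at h
    linarith [Val.nonneg hC h]
  set p : Dom X C → ℝ := fun v => sInf (Val C v.1) with hp
  have hle : ∀ (v : Dom X C) (r : ℝ), r ∈ Val C v.1 → p v ≤ r := fun v r hr => csInf_le (hb v) hr
  have hadd : ∀ v v' : Dom X C, p (v + v') ≤ p v + p v' := fun v v' => by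
    have h1 : ∀ r' ∈ Val C v'.1, p (v + v') - r' ≤ p v := fun r' hr' =>
      le_csInf v.2.1 fun r hr => by linarith [hle (v + v') _ (Val.add hr hr')]
    have h2 : p (v + v') - p v ≤ p v' := le_csInf v'.2.1 fun r' hr' => by linarith [h1 r' hr']
    linarith
  have hsm : ∀ c : ℝ, 0 < c → ∀ v : Dom X C, p (c • v) ≤ c * p v := fun c hc v => by
    have h1 : p (c • v) / c ≤ p v := le_csInf v.2.1 fun r hr => by
      rw [div_le_iff₀' hc]
      exact hle (c • v) _ (Val.smul hc.le hr)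
    rwa [div_le_iff₀' hc] at h1
  have hsm' : ∀ c : ℝ, 0 < c → ∀ v : Dom X C, p (c • v) = c * p v := fun c hc v => by
    refine le_antisymm (hsm c hc v) ?_
    have h1 := hsm c⁻¹ (inv_pos.2 hc) (c • v)
    rw [inv_smul_smul₀ hc.ne'] at h1
    rwa [le_inv_mul_iff₀ hc] at h1
  have h0 : 0 ≤ p 0 := le_csInf (0 : Dom X C).2.1 fun r hr => Val.nonneg hC hr
  obtain ⟨Λ, -, hΛ⟩ := exists_extension_of_le_sublinear
    (⟨⊥, 0⟩ : Dom X C →ₗ.[ℝ] ℝ) p hsm' hadd (fun x => by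
      have h1 : (x : Dom X C) = 0 := (Submodule.mem_bot ℝ).1 x.2
      rw [h1]
      exact h0)
  refine ⟨Λ, fun x => ⟨?_, (hΛ _).trans (hle _ _ (mem_Val_qq C x))⟩⟩
  have h1 := (hΛ (-⟨qq x, qq_mem C x⟩)).trans (hle _ _ (mem_Val_neg_qq C x))
  rw [map_neg] at h1
  linarith

/-- The polar form of `qq`. -/
def bb (x y : X) : (X →ₗ[ℂ] ℂ) → ℝ := fun ξ => (ξ x).re * (ξ y).re + (ξ x).im * (ξ y).im

lemma bb_mem (C : ℝ) (x y : X) : bb x y ∈ Dom X C := by
  have h : bb x y = (1 / 2 : ℝ) • (qq (x + y) - qq x - qq y) := by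
    funext ξ
    simp only [bb, qq, Pi.smul_apply, Pi.sub_apply, map_add, Complex.sq_norm,
      Complex.normSq_apply, Complex.add_re, Complex.add_im, smul_eq_mul]
    ring
  rw [h]
  exact Submodule.smul_mem _ _
    (Submodule.sub_mem _ (Submodule.sub_mem _ (qq_mem C _) (qq_mem C _)) (qq_mem C _))

lemma exists_form {C : ℝ} (hC : LP X C) : ∃ B : X → X → ℝ,
    (∀ x y, B x y = B y x) ∧ (∀ x y z, B (x + y) z = B x z + B y z) ∧
    (∀ (c : ℂ) x y, B (c • x) y = c.re * B x y - c.im * B x (Complex.I • y)) ∧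
    ∀ x, ‖x‖ ^ 2 ≤ B x x ∧ B x x ≤ C * ‖x‖ ^ 2 := by
  obtain ⟨Λ, hΛ⟩ := exists_functional hC
  refine ⟨fun x y => Λ ⟨bb x y, bb_mem C x y⟩, fun x y => ?_, fun x y z => ?_, fun c x y => ?_,
    fun x => ?_⟩
  · refine congrArg Λ (Subtype.ext (funext fun ξ => ?_))
    simp only [bb]
    ring
  · rw [← map_add]
    refine congrArg Λ (Subtype.ext (funext fun ξ => ?_))
    simp only [bb, map_add, Complex.add_re, Complex.add_im, Submodule.coe_add, Pi.add_apply]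
    ring
  · rw [← smul_eq_mul, ← smul_eq_mul, ← map_smul, ← map_smul, ← map_sub]
    refine congrArg Λ (Subtype.ext (funext fun ξ => ?_))
    simp only [bb, map_smul, smul_eq_mul, Complex.mul_re, Complex.mul_im, Complex.I_re,
      Complex.I_im, Submodule.coe_sub, Submodule.coe_smul, Pi.sub_apply, Pi.smul_apply]
    ring
  · have h : (⟨bb x x, bb_mem C x x⟩ : Dom X C) = ⟨qq x, qq_mem C x⟩ :=
      Subtype.ext (funext fun ξ => by simp only [bb, qq, Complex.sq_norm, Complex.normSq_apply])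
    simp only [h]
    exact hΛ x

lemma exists_cform {C : ℝ} (hC : LP X C) : ∃ F : X → X → ℂ,
    (∀ x y, (starRingEnd ℂ) (F y x) = F x y) ∧ (∀ x y z, F (x + y) z = F x z + F y z) ∧
    (∀ x y (c : ℂ), F (c • x) y = (starRingEnd ℂ) c * F x y) ∧
    ∀ x, ‖x‖ ^ 2 ≤ (F x x).re ∧ (F x x).re ≤ C * ‖x‖ ^ 2 := by
  obtain ⟨B, h1, h2, h3, h4⟩ := exists_form hC
  have h5 : ∀ x y, B (Complex.I • x) y = -B x (Complex.I • y) := fun x y => by
    rw [h3]; simp
  have h7 : ∀ x y, B x (-y) = -B x y := fun x y => by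
    have := h3 (-1) y x
    rw [neg_one_smul] at this
    rw [h1, this, h1]
    simp
  refine ⟨fun x y => (B x y : ℂ) - (B x (Complex.I • y) : ℂ) * Complex.I, fun x y => ?_,
    fun x y z => ?_, fun x y c => ?_, fun x => ?_⟩
  · have h8 := h5 x y
    rw [h1] at h8
    simp only [h8, h1 y x]
    apply Complex.ext <;> simp
  · simp only [h2]
    push_cast
    ring
  · have h9 := h3 c x (Complex.I • y)
    rw [smul_smul, Complex.I_mul_I, neg_one_smul, h7] at h9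
    simp only [h3 c x y, h9]
    apply Complex.ext
    · simp
    · simp
      ring
  · simpa using h4 x

/-- A copy of the space that will carry the Hilbert norm. -/
def Syn (X : Type) : Type := X

instance : AddCommGroup (Syn X) := inferInstanceAs (AddCommGroup X)

instance : Module ℂ (Syn X) := inferInstanceAs (Module ℂ X)

theorem hilbert_of_LP [CompleteSpace X] {C : ℝ} (hC0 : 0 ≤ C) (hC : LP X C) :
    ∃ (H : Type) (_ : NormedAddCommGroup H) (_ : InnerProductSpace ℂ H) (_ : CompleteSpace H),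
      Nonempty (X ≃L[ℂ] H) := by
  obtain ⟨F, h1, h2, h3, h4⟩ := exists_cform hC
  let core : InnerProductSpace.Core ℂ (Syn X) :=
    { inner := F
      conj_inner_symm := h1
      re_inner_nonneg := fun x => (sq_nonneg _).trans (h4 x).1
      add_left := h2
      smul_left := h3
      definite := fun x hx => by
        have h9 := (h4 x).1
        have h8 : F x x = 0 := hx
        rw [h8, Complex.zero_re] at h9
        exact norm_eq_zero.1 ((pow_eq_zero_iff two_ne_zero).1 (le_antisymm h9 (sq_nonneg _))) }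
  let _ : NormedAddCommGroup (Syn X) := core.toNormedAddCommGroup
  let _ : InnerProductSpace ℂ (Syn X) := InnerProductSpace.ofCore core.toCore
  have hn : ∀ x : Syn X, ‖x‖ ^ 2 = (F x x).re := fun x =>
    (inner_self_eq_norm_sq (𝕜 := ℂ) x).symm
  let e0 : X ≃ₗ[ℂ] Syn X := LinearEquiv.refl ℂ X
  let e : X ≃L[ℂ] Syn X := e0.toContinuousLinearEquivOfBounds √C 1
    (fun x => by
      refine (pow_le_pow_iff_left₀ (norm_nonneg _) (by positivity) two_ne_zero).1 ?_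
      rw [hn, mul_pow, Real.sq_sqrt hC0]
      exact (h4 x).2)
    (fun x => by
      refine (pow_le_pow_iff_left₀ (norm_nonneg _) (by positivity) two_ne_zero).1 ?_
      rw [one_mul, hn]
      exact (h4 x).1)
  exact ⟨Syn X, inferInstance, inferInstance,
    (completeSpace_congr (e := e.toEquiv) e.isUniformEmbedding).1 inferInstance, ⟨e⟩⟩

theorem kwapien [CompleteSpace X] {K : ℝ} (hK : 0 ≤ K)
    (ht : ∀ (n : ℕ) (x : Fin n → X), R2 x ≤ K * ∑ i, ‖x i‖ ^ 2)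
    (hc : ∀ (n : ℕ) (x : Fin n → X), ∑ i, ‖x i‖ ^ 2 ≤ K * R2 x) :
    ∃ (H : Type) (_ : NormedAddCommGroup H) (_ : InnerProductSpace ℂ H) (_ : CompleteSpace H),
      Nonempty (X ≃L[ℂ] H) := by
  obtain ⟨C, hC0, hC⟩ := exists_LP ht hc hK
  exact hilbert_of_LP hC0 hC

end Pool.Agent.Lib.MP_ec63c8_an.HC
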