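import Pool.Agent.Lib.MP_ec63c8_an.HC.Wave

/-!
The row shift on `lp (ℕ; X)`: resolvent formula, finite arrays, gluing.
-/

open Filter Topology MeasureTheory Finset

namespace Pool.Agent.Lib.MP_ec63c8_an.HC

variable {X : Type} [NormedAddCommGroup X] [NormedSpace ℂ X] {p : ENNReal}

/-- The index map of the row shift. -/
def nx (i : ℕ) : ℕ := Nat.pair i.unpair.1 (i.unpair.2 + 1)

lemma nx_pair (j k : ℕ) : nx (Nat.pair j k) = Nat.pair j (k + 1) := by simp [nx]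

lemma nx_inj : Function.Injective nx := fun i i' h => by
  obtain ⟨h1, h2⟩ := Nat.pair_eq_pair.1 h
  rw [← Nat.pair_unpair i, ← Nat.pair_unpair i', h1, Nat.succ_injective h2]

/-- The index map onto the `j`-th group of rows. -/
def gr (j i : ℕ) : ℕ := Nat.pair (Nat.pair j i.unpair.1) i.unpair.2

lemma gr_inj (j : ℕ) : Function.Injective (gr j) := fun i i' h => by
  obtain ⟨h1, h2⟩ := Nat.pair_eq_pair.1 h
  rw [← Nat.pair_unpair i, ← Nat.pair_unpair i', (Nat.pair_eq_pair.1 h1).2, h2]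

lemma nx_gr (j i : ℕ) : nx (gr j i) = gr j (nx i) := by simp [nx, gr]

omit [NormedSpace ℂ X] in
lemma sum_le_of_inj (hq : 0 < p.toReal) (f : lp (fun _ : ℕ => X) p) {τ : ℕ → ℕ}
    (hτ : Function.Injective τ) (s : Finset ℕ) :
    ∑ i ∈ s, ‖f (τ i)‖ ^ p.toReal ≤ ‖f‖ ^ p.toReal := by
  have h := lp.sum_rpow_le_norm_rpow hq f (s.map ⟨τ, hτ⟩)
  rwa [Finset.sum_map] at h

omit [NormedSpace ℂ X] in
lemma exists_arr (hq : 0 < p.toReal) (N M : ℕ) (φ : ℕ → ℕ → X) (h0 : ∀ r k, M ≤ k → φ r k = 0) :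
    ∃ g : lp (fun _ : ℕ => X) p, (∀ r k, r < N → g (Nat.pair r k) = φ r k) ∧
      ‖g‖ ^ p.toReal = ∑ r ∈ range N, ∑ k ∈ range M, ‖φ r k‖ ^ p.toReal := by
  set F : ℕ → X := fun i => if i.unpair.1 < N then φ i.unpair.1 i.unpair.2 else 0 with hF
  have h1 : ∀ r k, r < N → F (Nat.pair r k) = φ r k := fun r k hr => by simp [hF, hr]
  have h2 : HasSum (fun i => ‖F i‖ ^ p.toReal)
      (∑ i ∈ (range N ×ˢ range M).map Nat.pairEquiv.toEmbedding, ‖F i‖ ^ p.toReal) := by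
    refine hasSum_sum_of_ne_finset_zero fun i hi => ?_
    have h3 : F i = 0 := by
      simp only [hF]
      split_ifs with h4
      · refine h0 _ _ (not_lt.1 fun h5 => hi (Finset.mem_map.2 ⟨i.unpair, ?_, Nat.pair_unpair i⟩))
        exact Finset.mem_product.2 ⟨Finset.mem_range.2 h4, Finset.mem_range.2 h5⟩
      · rfl
    rw [h3, norm_zero, Real.zero_rpow hq.ne']
  have h6 : Memℓp (E := fun _ : ℕ => X) F p := memℓp_gen h2.summable
  refine ⟨⟨F, h6⟩, h1, ((lp.hasSum_norm hq ⟨F, h6⟩).unique h2).trans ?_⟩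
  rw [Finset.sum_map, Finset.sum_product]
  exact Finset.sum_congr rfl fun r hr => Finset.sum_congr rfl fun k _ =>
    congrArg (fun y : X => ‖y‖ ^ p.toReal) (h1 r k (Finset.mem_range.1 hr))

variable [Fact (1 ≤ p)]

omit [NormedSpace ℂ X] in
lemma exists_vec (hq : 1 ≤ p.toReal) (g : ℕ → lp (fun _ : ℕ => X) p)
    (hg : ∀ j, ‖g j‖ ≤ (1 / 2) ^ j) :
    ∃ f : lp (fun _ : ℕ => X) p, ∀ j i, f (gr j i) = g j i := by
  have hq0 : 0 < p.toReal := by linarith
  have h3 : Summable fun x : ℕ × ℕ => ‖g x.1 x.2‖ ^ p.toReal := by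
    rw [summable_prod_of_nonneg fun x => Real.rpow_nonneg (norm_nonneg _) _]
    refine ⟨fun j => (lp.hasSum_norm hq0 (g j)).summable, ?_⟩
    refine Summable.of_nonneg_of_le
      (fun j => tsum_nonneg fun i => Real.rpow_nonneg (norm_nonneg _) _) (fun j => ?_)
      summable_geometric_two
    rw [(lp.hasSum_norm hq0 (g j)).tsum_eq]
    refine le_trans ?_ (hg j)
    have h4 : ‖g j‖ ≤ 1 := (hg j).trans (pow_le_one₀ (by norm_num) (by norm_num))
    exact Real.rpow_le_self_of_le_one (norm_nonneg _) h4 hq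
  have h4 : Function.Injective fun i : ℕ =>
      (i.unpair.1.unpair.1, Nat.pair i.unpair.1.unpair.2 i.unpair.2) :=
    Function.LeftInverse.injective (g := fun x : ℕ × ℕ => gr x.1 x.2) fun i => by
      simp only [gr, Nat.unpair_pair, Nat.pair_unpair]
  have h6 : Summable fun i : ℕ =>
      ‖g i.unpair.1.unpair.1 (Nat.pair i.unpair.1.unpair.2 i.unpair.2)‖ ^ p.toReal :=
    Summable.comp_injective (f := fun x : ℕ × ℕ => ‖g x.1 x.2‖ ^ p.toReal)
      (i := fun i : ℕ => (i.unpair.1.unpair.1, Nat.pair i.unpair.1.unpair.2 i.unpair.2)) h3 h4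
  have h5 : Memℓp (E := fun _ : ℕ => X)
      (fun i => g i.unpair.1.unpair.1 (Nat.pair i.unpair.1.unpair.2 i.unpair.2)) p :=
    memℓp_gen h6
  refine ⟨⟨_, h5⟩, fun j i => ?_⟩
  change g (gr j i).unpair.1.unpair.1
    (Nat.pair (gr j i).unpair.1.unpair.2 (gr j i).unpair.2) = _
  simp only [gr, Nat.unpair_pair, Nat.pair_unpair]

/-- Composition with an injective index map. -/
noncomputable def cmp (X : Type) [NormedAddCommGroup X] [NormedSpace ℂ X] (hq : 0 < p.toReal)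
    {τ : ℕ → ℕ} (hτ : Function.Injective τ) :
    lp (fun _ : ℕ => X) p →L[ℂ] lp (fun _ : ℕ => X) p :=
  LinearMap.mkContinuous
    { toFun := fun f => ⟨fun i => f (τ i), memℓp_gen' (sum_le_of_inj hq f hτ)⟩
      map_add' := fun _ _ => rfl
      map_smul' := fun _ _ => rfl } 1
    fun f => by
      rw [one_mul]
      exact lp.norm_le_of_forall_sum_le hq (norm_nonneg _) (sum_le_of_inj hq f hτ)

lemma norm_cmp_le (hq : 0 < p.toReal) {τ : ℕ → ℕ} (hτ : Function.Injective τ) :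
    ‖cmp X hq hτ‖ ≤ 1 := LinearMap.mkContinuous_norm_le _ zero_le_one _

lemma cmp_apply (hq : 0 < p.toReal) {τ : ℕ → ℕ} (hτ : Function.Injective τ)
    (f : lp (fun _ : ℕ => X) p) (i : ℕ) : cmp X hq hτ f i = f (τ i) := rfl

lemma sh_pow_apply (hq : 0 < p.toReal) (n : ℕ) (f : lp (fun _ : ℕ => X) p) (j k : ℕ) :
    (cmp X hq nx_inj ^ n) f (Nat.pair j k) = f (Nat.pair j (k + n)) := by
  induction n generalizing k with
  | zero => rfl
  | succ n ih =>
    rw [pow_succ', mul_apply_eq_comp, cmp_apply, nx_pair, ih, add_assoc, add_comm 1 n]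

lemma dense_nil (hq : 0 < p.toReal) (g : lp (fun _ : ℕ => X) p) (ε : ℝ) (hε : 0 < ε) :
    ∃ (f : lp (fun _ : ℕ => X) p) (n : ℕ), (cmp X hq nx_inj ^ n) f = 0 ∧ ‖g - f‖ < ε := by
  have h := lp.hasSum_single (p := p) (ENNReal.toReal_pos_iff.1 hq).2.ne g
  obtain ⟨s, hs⟩ := (Metric.tendsto_nhds.1 h ε hε).exists
  refine ⟨_, s.sup id + 1, ?_, by rwa [dist_comm, dist_eq_norm] at hs⟩
  refine lp.ext (funext fun i => ?_)
  rw [← Nat.pair_unpair i, sh_pow_apply, lp.coeFn_sum, Finset.sum_apply]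
  refine Finset.sum_eq_zero fun l hl => lp.single_apply_ne _ _ _ fun h1 => ?_
  have h2 : l ≤ s.sup id := Finset.le_sup (f := id) hl
  have h3 := Nat.right_le_pair i.unpair.1 (i.unpair.2 + (s.sup id + 1))
  omega

variable [CompleteSpace X]

lemma res_step (hq : 0 < p.toReal) {a : ℝ} (ha : 0 < a) (s : ℝ) (f : lp (fun _ : ℕ => X) p)
    (j k : ℕ) :
    res (cmp X hq nx_inj) a s f (Nat.pair j k) = (vv a s)⁻¹ • f (Nat.pair j k) +
      (vv a s)⁻¹ • res (cmp X hq nx_inj) a s f (Nat.pair j (k + 1)) := by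
  have h1 := congrArg (fun g : lp (fun _ : ℕ => X) p => g (Nat.pair j k))
    (res_eq (norm_pow_le_one (norm_cmp_le hq nx_inj)) ha s f)
  have h2 : vv a s • res (cmp X hq nx_inj) a s f (Nat.pair j k) =
      f (Nat.pair j k) + res (cmp X hq nx_inj) a s f (Nat.pair j (k + 1)) := by
    rw [← nx_pair]
    exact h1
  rw [← smul_add, ← h2, inv_smul_smul₀ (vv_ne ha s)]

lemma res_iter (hq : 0 < p.toReal) {a : ℝ} (ha : 0 < a) (s : ℝ) (f : lp (fun _ : ℕ => X) p)
    (j k N : ℕ) :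
    res (cmp X hq nx_inj) a s f (Nat.pair j k) = G N (vv a s)⁻¹ (fun l => f (Nat.pair j l)) k +
      (vv a s)⁻¹ ^ N • res (cmp X hq nx_inj) a s f (Nat.pair j (k + N)) := by
  induction N with
  | zero => simp [G]
  | succ N ih =>
    rw [ih, res_step hq ha s f j (k + N)]
    simp only [G, Finset.sum_range_succ, smul_add, smul_smul, ← pow_succ, add_assoc]

lemma res_row (hq : 0 < p.toReal) {a : ℝ} (ha : 0 < a) (s : ℝ) {f : lp (fun _ : ℕ => X) p}
    {j M : ℕ} {φ : ℕ → X} (hf : ∀ k, f (Nat.pair j k) = φ k) (hM : ∀ k, M ≤ k → φ k = 0)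
    (k : ℕ) : res (cmp X hq nx_inj) a s f (Nat.pair j k) = G M (vv a s)⁻¹ φ k := by
  have hz : ‖(vv a s)⁻¹‖ < 1 := by
    rw [norm_inv]
    exact inv_lt_one_of_one_lt₀ (lt_of_lt_of_le (by linarith) (le_norm_vv ha s))
  have h1 : Tendsto (fun N : ℕ => ‖(vv a s)⁻¹‖ ^ N * ‖res (cmp X hq nx_inj) a s f‖) atTop
      (𝓝 (0 * ‖res (cmp X hq nx_inj) a s f‖)) :=
    (tendsto_pow_atTop_nhds_zero_of_lt_one (norm_nonneg _) hz).mul_const _
  rw [zero_mul] at h1
  rw [← sub_eq_zero, ← norm_le_zero_iff]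
  refine ge_of_tendsto h1 ?_
  filter_upwards [eventually_ge_atTop M] with N hN
  have h2 : G N (vv a s)⁻¹ φ k = G M (vv a s)⁻¹ φ k := by
    refine (Finset.sum_subset (Finset.range_subset_range.2 hN) fun n _ hn => ?_).symm
    rw [hM (k + n) (by rw [Finset.mem_range] at hn; omega), smul_zero]
  rw [res_iter hq ha s f j k N, funext hf, h2, add_sub_cancel_left, norm_smul, norm_pow]
  exact mul_le_mul_of_nonneg_left
    (lp.norm_apply_le_norm (ENNReal.toReal_pos_iff.1 hq).1.ne' _ _) (by positivity)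

lemma row_le (hq : 0 < p.toReal) {a : ℝ} (ha : 0 < a) (s : ℝ) {f : lp (fun _ : ℕ => X) p}
    {j M : ℕ} {φ : ℕ → X} (hf : ∀ k, f (Nat.pair j k) = φ k) (hM : ∀ k, M ≤ k → φ k = 0)
    (L : ℕ) : ∑ k ∈ range L, ‖G M (vv a s)⁻¹ φ k‖ ^ p.toReal ≤
      ‖res (cmp X hq nx_inj) a s f‖ ^ p.toReal := by
  refine le_trans (le_of_eq ?_) (sum_le_of_inj hq (res (cmp X hq nx_inj) a s f)
    (τ := Nat.pair j) (fun k k' h => (Nat.pair_eq_pair.1 h).2) (range L))
  exact Finset.sum_congr rfl fun k _ => by rw [res_row hq ha s hf hM]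

theorem glue (hq : 0 < p.toReal) (hq1 : 1 ≤ p.toReal)
    (h : ∀ j : ℕ, ∃ (a : ℝ) (g : lp (fun _ : ℕ => X) p), 0 < a ∧ a ≤ 1 / ((j : ℝ) + 1) ∧
      ‖g‖ ≤ (1 / 2) ^ j ∧ ENNReal.ofReal j ≤ PP (cmp X hq nx_inj) g a) :
    ∃ f : lp (fun _ : ℕ => X) p, limsup (PP (cmp X hq nx_inj) f) (𝓝[>] (0 : ℝ)) = ⊤ := by
  choose a g ha ha₀ hg hP using h
  obtain ⟨f, hf⟩ := exists_vec hq1 g hg
  refine ⟨f, ?_⟩
  have h2 : ∀ j : ℕ, (j : ENNReal) ≤ PP (cmp X hq nx_inj) f (a j) := fun j => by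
    have h3 := PP_map_le (norm_pow_le_one (norm_cmp_le hq nx_inj)) (norm_cmp_le hq nx_inj)
      (cmp X hq (gr_inj j)) (fun y => lp.ext (funext fun i => by
        simp only [cmp_apply, nx_gr])) (norm_cmp_le hq _) (ha j) f
    have h4 : cmp X hq (gr_inj j) f = g j := lp.ext (funext fun i => hf j i)
    rw [h4, one_pow, ENNReal.ofReal_one, one_mul] at h3
    rw [← ENNReal.ofReal_natCast]
    exact (hP j).trans h3
  have h5 : Tendsto a atTop (𝓝[>] 0) :=
    tendsto_nhdsWithin_iff.2 ⟨squeeze_zero (fun j => (ha j).le) ha₀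
      tendsto_one_div_add_atTop_nhds_zero_nat, Eventually.of_forall ha⟩
  refine ENNReal.eq_top_of_forall_nnreal_le fun r => ?_
  refine le_limsup_of_frequently_le (h5.frequently (Eventually.frequently ?_))
  obtain ⟨n, hn⟩ := exists_nat_ge r
  filter_upwards [eventually_ge_atTop n] with j hj
  refine le_trans ?_ (h2 j)
  exact_mod_cast hn.trans (Nat.cast_le.2 hj)

end Pool.Agent.Lib.MP_ec63c8_an.HC
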