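import Mathlib

/-!
The semigroup `exp (t (S - 1))` of a power bounded operator `S`: bound, stability, resolvent.
-/

open Filter Topology MeasureTheory Set
open scoped Nat

namespace Pool.Agent.Lib.MP_ec63c8_an.HC

variable {Y : Type*} [NormedAddCommGroup Y] [NormedSpace ℂ Y] [CompleteSpace Y]

/-- The semigroup generated by `S - 1`. -/
noncomputable def sg (S : Y →L[ℂ] Y) (t : ℝ) : Y →L[ℂ] Y :=
  Complex.exp (-(t : ℂ)) • NormedSpace.exp ((t : ℂ) • S)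

omit [CompleteSpace Y] in
lemma sg_zero (S : Y →L[ℂ] Y) : sg S 0 = 1 := by simp [sg]

lemma sg_add (S : Y →L[ℂ] Y) (s t : ℝ) : sg S (s + t) = sg S s * sg S t := by
  have hc : Commute ((s : ℂ) • S) ((t : ℂ) • S) := ((Commute.refl S).smul_left _).smul_right _
  have h := NormedSpace.exp_add_of_commute_of_mem_ball (𝕂 := ℂ) hc
    ((NormedSpace.expSeries_radius_eq_top ℂ (Y →L[ℂ] Y)).symm ▸ edist_lt_top _ _)
    ((NormedSpace.expSeries_radius_eq_top ℂ (Y →L[ℂ] Y)).symm ▸ edist_lt_top _ _)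
  simp only [sg]
  rw [smul_mul_smul_comm, ← h, ← Complex.exp_add, ← add_smul, Complex.ofReal_add, neg_add]

lemma hasDerivAt_sg (S : Y →L[ℂ] Y) (t : ℝ) :
    HasDerivAt (sg S) (S * sg S t - sg S t) t := by
  have h1 : HasDerivAt (fun u : ℂ => Complex.exp (-u) • NormedSpace.exp (u • S))
      (Complex.exp (-(t : ℂ)) • (S * NormedSpace.exp ((t : ℂ) • S)) +
        (Complex.exp (-(t : ℂ)) * -1) • NormedSpace.exp ((t : ℂ) • S)) (t : ℂ) :=
    ((hasDerivAt_neg (t : ℂ)).cexp).smul (hasDerivAt_exp_smul_const' S (t : ℂ))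
  have h2 := h1.scomp t (Complex.ofRealCLM.hasDerivAt (x := t))
  have h3 : S * sg S t - sg S t = Complex.ofRealCLM 1 •
      (Complex.exp (-(t : ℂ)) • (S * NormedSpace.exp ((t : ℂ) • S)) +
        (Complex.exp (-(t : ℂ)) * -1) • NormedSpace.exp ((t : ℂ) • S)) := by
    simp [sg, sub_eq_add_neg]
  rw [h3]
  exact h2

lemma continuous_sg (S : Y →L[ℂ] Y) : Continuous (sg S) :=
  continuous_iff_continuousAt.mpr fun t => (hasDerivAt_sg S t).continuousAt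

omit [CompleteSpace Y] in
lemma norm_pow_le_one {S : Y →L[ℂ] Y} (hS : ‖S‖ ≤ 1) (n : ℕ) : ‖S ^ n‖ ≤ 1 := by
  induction n with
  | zero => exact ContinuousLinearMap.norm_id_le
  | succ n ih =>
    rw [pow_succ]
    exact (norm_mul_le _ _).trans (mul_le_one₀ ih (norm_nonneg _) hS)

lemma norm_sg_le {S : Y →L[ℂ] Y} {C : ℝ} (hS : ∀ n : ℕ, ‖S ^ n‖ ≤ C) {t : ℝ} (ht : 0 ≤ t) :
    ‖sg S t‖ ≤ C := by
  have h1 := NormedSpace.exp_series_hasSum_exp' (𝕂 := ℂ) ((t : ℂ) • S)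
  have h2 : HasSum (fun n : ℕ => t ^ n / (n ! : ℝ)) (Real.exp t) := by
    rw [Real.exp_eq_exp_ℝ]
    exact NormedSpace.expSeries_div_hasSum_exp t
  have h3 : ‖NormedSpace.exp ((t : ℂ) • S)‖ ≤ Real.exp t * C := by
    refine h1.norm_le_of_bounded (h2.mul_right C) fun n => ?_
    rw [smul_pow, norm_smul, norm_smul, norm_inv, norm_pow, Complex.norm_natCast,
      Complex.norm_real, Real.norm_of_nonneg ht, div_eq_inv_mul, mul_assoc]
    exact mul_le_mul_of_nonneg_left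
      (mul_le_mul_of_nonneg_left (hS n) (by positivity)) (by positivity)
  rw [sg, norm_smul, Complex.norm_exp]
  calc Real.exp (-(t : ℂ)).re * ‖NormedSpace.exp ((t : ℂ) • S)‖
      ≤ Real.exp (-(t : ℂ)).re * (Real.exp t * C) := by gcongr
    _ = C := by simp [← mul_assoc, ← Real.exp_add]

lemma tendsto_sg_of_nil {S : Y →L[ℂ] Y} {f : Y} {n : ℕ} (h : (S ^ n) f = 0) :
    Tendsto (fun t : ℝ => sg S t f) atTop (𝓝 0) := by
  have h1 : ∀ t : ℝ, sg S t f = ∑ k ∈ Finset.range n,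
      ((t ^ k * Real.exp (-t) : ℝ) : ℂ) • ((k ! : ℂ)⁻¹ • (S ^ k) f) := by
    intro t
    have h2 := (NormedSpace.exp_series_hasSum_exp' (𝕂 := ℂ) ((t : ℂ) • S)).mapL
      (ContinuousLinearMap.apply ℂ Y f)
    have h3 : HasSum (fun k : ℕ => (ContinuousLinearMap.apply ℂ Y f)
        ((k !⁻¹ : ℂ) • ((t : ℂ) • S) ^ k)) (∑ k ∈ Finset.range n,
          (ContinuousLinearMap.apply ℂ Y f) ((k !⁻¹ : ℂ) • ((t : ℂ) • S) ^ k)) := by
      refine hasSum_sum_of_ne_finset_zero fun k hk => ?_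
      obtain ⟨m, rfl⟩ := Nat.exists_eq_add_of_le' (not_lt.mp fun h' => hk (Finset.mem_range.2 h'))
      simp [smul_pow, pow_add, h]
    have h4 := h2.unique h3
    simp only [ContinuousLinearMap.apply_apply] at h4
    rw [sg, smul_apply, h4, Finset.smul_sum]
    refine Finset.sum_congr rfl fun k _ => ?_
    simp only [smul_pow, smul_apply, smul_smul]
    push_cast
    ring_nf
  simp only [h1]
  have h5 : (0 : Y) = ∑ k ∈ Finset.range n, ((0 : ℝ) : ℂ) • ((k ! : ℂ)⁻¹ • (S ^ k) f) := by simp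
  rw [h5]
  exact tendsto_finsetSum _ fun k _ =>
    ((Complex.continuous_ofReal.tendsto 0).comp
      (Real.tendsto_pow_mul_exp_neg_atTop_nhds_zero k)).smul_const _

lemma tendsto_sg {S : Y →L[ℂ] Y} {C : ℝ} (hS : ∀ n : ℕ, ‖S ^ n‖ ≤ C)
    (hd : ∀ (g : Y) (ε : ℝ), 0 < ε → ∃ (f : Y) (n : ℕ), (S ^ n) f = 0 ∧ ‖g - f‖ < ε) (g : Y) :
    Tendsto (fun t : ℝ => sg S t g) atTop (𝓝 0) := by
  have hC : 0 ≤ C := (norm_nonneg _).trans (hS 0)
  rw [NormedAddGroup.tendsto_nhds_zero]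
  intro ε hε
  obtain ⟨f, n, hn, hf⟩ := hd g (ε / 2 / (C + 1)) (by positivity)
  filter_upwards [NormedAddGroup.tendsto_nhds_zero.1 (tendsto_sg_of_nil hn) (ε / 2)
    (by positivity), eventually_ge_atTop (0 : ℝ)] with t ht ht0
  have h1 : sg S t g = sg S t (g - f) + sg S t f := by rw [← map_add, sub_add_cancel]
  have h2 : ‖sg S t (g - f)‖ ≤ C * ‖g - f‖ := (sg S t).le_of_opNorm_le (norm_sg_le hS ht0) _
  rw [lt_div_iff₀ (by positivity)] at hf
  rw [h1]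
  nlinarith [norm_add_le (sg S t (g - f)) (sg S t f), norm_nonneg (g - f)]

/-- The integrand of the Laplace transform. -/
noncomputable def lap (S : Y →L[ℂ] Y) (a s : ℝ) (g : Y) (t : ℝ) : Y :=
  Complex.exp (-(((a : ℂ) + (s : ℂ) * Complex.I) * (t : ℂ))) • sg S t g

lemma norm_lap_le {S : Y →L[ℂ] Y} {C : ℝ} (hS : ∀ n : ℕ, ‖S ^ n‖ ≤ C) (a s : ℝ) (g : Y) {t : ℝ}
    (ht : 0 ≤ t) : ‖lap S a s g t‖ ≤ Real.exp (-a * t) * (C * ‖g‖) := by
  rw [lap, norm_smul, Complex.norm_exp]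
  have h1 : (-(((a : ℂ) + (s : ℂ) * Complex.I) * (t : ℂ))).re = -a * t := by simp
  rw [h1]
  exact mul_le_mul_of_nonneg_left ((sg S t).le_of_opNorm_le (norm_sg_le hS ht) _)
    (Real.exp_pos _).le

lemma hasDerivAt_lap (S : Y →L[ℂ] Y) (a s : ℝ) (g : Y) (t : ℝ) :
    HasDerivAt (lap S a s g) (S (lap S a s g t) -
      (1 + ((a : ℂ) + (s : ℂ) * Complex.I)) • lap S a s g t) t := by
  have h1 : HasDerivAt (fun u : ℝ => sg S u g) ((S * sg S t - sg S t) g) t :=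
    ((ContinuousLinearMap.apply ℂ Y g).restrictScalars ℝ).hasFDerivAt.comp_hasDerivAt t
      (hasDerivAt_sg S t)
  have h2 : HasDerivAt (fun u : ℝ =>
      Complex.exp (-(((a : ℂ) + (s : ℂ) * Complex.I) * (u : ℂ))))
      (Complex.exp (-(((a : ℂ) + (s : ℂ) * Complex.I) * (t : ℂ))) *
        -(((a : ℂ) + (s : ℂ) * Complex.I) * 1)) t :=
    (((hasDerivAt_id (t : ℂ)).const_mul _).neg.cexp).comp_ofReal
  have h3 := h2.smul h1
  refine h3.congr_deriv ?_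
  simp only [lap, sub_apply, mul_apply_eq_comp, map_smul]
  module

lemma integrableOn_lap {S : Y →L[ℂ] Y} {C : ℝ} (hS : ∀ n : ℕ, ‖S ^ n‖ ≤ C) {a : ℝ} (ha : 0 < a)
    (s : ℝ) (g : Y) : IntegrableOn (lap S a s g) (Ioi 0) := by
  have hc : Continuous (lap S a s g) :=
    continuous_iff_continuousAt.mpr fun t => (hasDerivAt_lap S a s g t).continuousAt
  refine Integrable.mono' ((exp_neg_integrableOn_Ioi 0 ha).mul_const (C * ‖g‖))
    hc.aestronglyMeasurable ?_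
  filter_upwards [ae_restrict_mem measurableSet_Ioi] with t ht
  exact norm_lap_le hS a s g (le_of_lt ht)

/-- The resolvent as a Laplace transform. -/
noncomputable def res (S : Y →L[ℂ] Y) (a s : ℝ) (g : Y) : Y := ∫ t in Ioi (0 : ℝ), lap S a s g t

lemma res_eq {S : Y →L[ℂ] Y} {C : ℝ} (hS : ∀ n : ℕ, ‖S ^ n‖ ≤ C) {a : ℝ} (ha : 0 < a) (s : ℝ)
    (g : Y) :
    (1 + ((a : ℂ) + (s : ℂ) * Complex.I)) • res S a s g = g + S (res S a s g) := by
  have hi := integrableOn_lap hS ha s g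
  have hi1 : IntegrableOn (fun t => S (lap S a s g t)) (Ioi 0) := S.integrable_comp hi
  have hi2 : IntegrableOn (fun t => (1 + ((a : ℂ) + (s : ℂ) * Complex.I)) • lap S a s g t)
      (Ioi 0) := hi.smul _
  have h0 : Tendsto (lap S a s g) atTop (𝓝 0) := by
    have h1 : Tendsto (fun t : ℝ => Real.exp (-a * t) * (C * ‖g‖)) atTop
        (𝓝 (0 * (C * ‖g‖))) :=
      (Real.tendsto_exp_atBot.comp (tendsto_id.const_mul_atTop_of_neg (by linarith))).mul_const _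
    rw [zero_mul] at h1
    refine squeeze_zero_norm' ?_ h1
    filter_upwards [eventually_ge_atTop (0 : ℝ)] with t ht
    exact norm_lap_le hS a s g ht
  have h2 := integral_Ioi_of_hasDerivAt_of_tendsto' (a := 0)
    (fun t _ => hasDerivAt_lap S a s g t) (hi1.sub hi2) h0
  rw [integral_sub hi1 hi2, S.integral_comp_comm hi, integral_smul] at h2
  have h3 : lap S a s g 0 = g := by simp [lap, sg_zero]
  rw [h3] at h2
  change S (res S a s g) - (1 + ((a : ℂ) + (s : ℂ) * Complex.I)) • res S a s g = 0 - g at h2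
  rw [← sub_eq_zero]
  have h4 : (1 + ((a : ℂ) + (s : ℂ) * Complex.I)) • res S a s g - (g + S (res S a s g)) =
      (0 - g) - (S (res S a s g) - (1 + ((a : ℂ) + (s : ℂ) * Complex.I)) • res S a s g) := by
    abel
  rw [h4, h2, sub_self]

lemma norm_sq_one_add (a s : ℝ) :
    ‖1 + ((a : ℂ) + (s : ℂ) * Complex.I)‖ ^ 2 = (1 + a) ^ 2 + s ^ 2 := by
  rw [Complex.sq_norm, Complex.normSq_apply]
  simp
  ring

lemma norm_res_le {S : Y →L[ℂ] Y} {C : ℝ} (hS : ∀ n : ℕ, ‖S ^ n‖ ≤ C) {a : ℝ} (ha : 0 < a)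
    (s : ℝ) (g : Y) : ‖res S a s g‖ ≤ C * ‖g‖ / a := by
  have h1 := norm_integral_le_of_norm_le (f := lap S a s g) (μ := volume.restrict (Ioi 0))
    ((exp_neg_integrableOn_Ioi 0 ha).mul_const (C * ‖g‖)) (by
      filter_upwards [ae_restrict_mem measurableSet_Ioi] with t ht
      exact norm_lap_le hS a s g (le_of_lt ht))
  rw [integral_mul_const, integral_exp_mul_Ioi (by linarith)] at h1
  refine h1.trans (le_of_eq ?_)
  simp only [mul_zero, Real.exp_zero]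
  field_simp

lemma norm_res_sq_le {S : Y →L[ℂ] Y} {C : ℝ} (hS : ∀ n : ℕ, ‖S ^ n‖ ≤ C) {a : ℝ} (ha : 0 < a)
    (s : ℝ) (g : Y) :
    ‖res S a s g‖ ^ 2 ≤ (‖g‖ + ‖S‖ * (C * ‖g‖ / a)) ^ 2 * (1 + s ^ 2)⁻¹ := by
  have h1 := congrArg norm (res_eq hS ha s g)
  rw [norm_smul] at h1
  have h2 := S.le_opNorm_of_le (norm_res_le hS ha s g)
  have h3 := norm_add_le g (S (res S a s g))
  have h4 := norm_sq_one_add a s
  set w := ‖1 + ((a : ℂ) + (s : ℂ) * Complex.I)‖ with hw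
  set r := ‖res S a s g‖ with hr
  have h5 : w * r ≤ ‖g‖ + ‖S‖ * (C * ‖g‖ / a) := by linarith
  have h6 := pow_le_pow_left₀ (by positivity) h5 2
  rw [← div_eq_mul_inv, le_div_iff₀ (by positivity)]
  have h7 : 1 + s ^ 2 ≤ w ^ 2 := by nlinarith
  calc r ^ 2 * (1 + s ^ 2) ≤ r ^ 2 * w ^ 2 := by gcongr
    _ = (w * r) ^ 2 := by ring
    _ ≤ _ := h6

/-- Intertwining of resolvents, when the target operator is a contraction. -/
lemma map_res {Z : Type*} [NormedAddCommGroup Z] [NormedSpace ℂ Z] [CompleteSpace Z]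
    {S : Y →L[ℂ] Y} {C : ℝ} (hS : ∀ n : ℕ, ‖S ^ n‖ ≤ C) {S' : Z →L[ℂ] Z} (hS' : ‖S'‖ ≤ 1)
    (P : Y →L[ℂ] Z) (hP : ∀ y, P (S y) = S' (P y)) {a : ℝ} (ha : 0 < a) (s : ℝ) (g : Y) :
    P (res S a s g) = res S' a s (P g) := by
  have h1 := congrArg P (res_eq hS ha s g)
  rw [map_smul, map_add, hP] at h1
  have h2 := res_eq (norm_pow_le_one hS') ha s (P g)
  have h3 : (1 + ((a : ℂ) + (s : ℂ) * Complex.I)) • (P (res S a s g) - res S' a s (P g)) =
      S' (P (res S a s g) - res S' a s (P g)) := by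
    rw [smul_sub, h1, h2, map_sub]
    abel
  have h4 := congrArg norm h3
  rw [norm_smul] at h4
  have h5 := S'.le_of_opNorm_le hS' (P (res S a s g) - res S' a s (P g))
  have hw1 : 1 + a ≤ ‖1 + ((a : ℂ) + (s : ℂ) * Complex.I)‖ :=
    (pow_le_pow_iff_left₀ (by positivity) (norm_nonneg _) two_ne_zero).1
      (by rw [norm_sq_one_add]; nlinarith)
  rw [← sub_eq_zero, ← norm_le_zero_iff]
  have h6 := mul_le_mul_of_nonneg_right hw1 (norm_nonneg (P (res S a s g) - res S' a s (P g)))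
  by_contra h7
  nlinarith [mul_pos ha (not_le.1 h7)]

omit [NormedSpace ℂ Y] [CompleteSpace Y] in
lemma coe_nnnorm_sq (y : Y) : ((‖y‖₊ : ENNReal)) ^ 2 = ENNReal.ofReal (‖y‖ ^ 2) := by
  rw [ENNReal.ofReal_pow (norm_nonneg _), ofReal_norm]
  rfl

lemma lintegral_res_lt_top {S : Y →L[ℂ] Y} {C : ℝ} (hS : ∀ n : ℕ, ‖S ^ n‖ ≤ C) {a : ℝ}
    (ha : 0 < a) (g : Y) : ∫⁻ s : ℝ, ((‖res S a s g‖₊ : ENNReal)) ^ 2 < ⊤ := by
  have hi := integrable_inv_one_add_sq.const_mul ((‖g‖ + ‖S‖ * (C * ‖g‖ / a)) ^ 2)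
  refine lt_of_le_of_lt (lintegral_mono fun s => ?_) hi.lintegral_lt_top
  rw [coe_nnnorm_sq]
  exact ENNReal.ofReal_le_ofReal (norm_res_sq_le hS ha s g)

/-- The quantity in the resolvent condition. -/
noncomputable def PP (S : Y →L[ℂ] Y) (g : Y) (a : ℝ) : ENNReal :=
  ENNReal.ofReal a * ∫⁻ s : ℝ, ((‖res S a s g‖₊ : ENNReal)) ^ 2

lemma PP_map_le {Z : Type*} [NormedAddCommGroup Z] [NormedSpace ℂ Z] [CompleteSpace Z]
    {S : Y →L[ℂ] Y} {C : ℝ} (hS : ∀ n : ℕ, ‖S ^ n‖ ≤ C) {S' : Z →L[ℂ] Z} (hS' : ‖S'‖ ≤ 1)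
    (P : Y →L[ℂ] Z) (hP : ∀ y, P (S y) = S' (P y)) {D : ℝ} (hD : ‖P‖ ≤ D) {a : ℝ} (ha : 0 < a)
    (g : Y) : PP S' (P g) a ≤ ENNReal.ofReal (D ^ 2) * PP S g a := by
  rw [PP, PP, mul_left_comm,
    ← lintegral_const_mul' (ENNReal.ofReal (D ^ 2)) _ ENNReal.ofReal_ne_top]
  refine mul_le_mul_right (lintegral_mono fun s => ?_) _
  rw [coe_nnnorm_sq, coe_nnnorm_sq, ← ENNReal.ofReal_mul (sq_nonneg _), ← mul_pow,
    ← map_res hS hS' P hP ha]
  exact ENNReal.ofReal_le_ofReal (pow_le_pow_left₀ (norm_nonneg _) (P.le_of_opNorm_le hD _) 2)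

omit [CompleteSpace Y] in
lemma le_PP {S : Y →L[ℂ] Y} {g : Y} {a v B : ℝ} (ha : 0 < a) (hB : 0 ≤ B)
    (h : ∀ s, 0 ≤ s → s < v → B ≤ ‖res S a s g‖) : ENNReal.ofReal (a * (v * B ^ 2)) ≤ PP S g a := by
  rw [PP, ENNReal.ofReal_mul ha.le]
  refine mul_le_mul_right (le_trans ?_ (setLIntegral_le_lintegral (Ico 0 v) _)) _
  refine le_trans (le_of_eq ?_) (setLIntegral_mono' (f := fun _ => ENNReal.ofReal (B ^ 2))
    measurableSet_Ico fun s hs => ?_)
  · rw [setLIntegral_const, Real.volume_Ico, sub_zero, mul_comm v, ENNReal.ofReal_mul (sq_nonneg _)]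
  · rw [coe_nnnorm_sq]
    exact ENNReal.ofReal_le_ofReal (pow_le_pow_left₀ hB (h s hs.1 hs.2) 2)

end Pool.Agent.Lib.MP_ec63c8_an.HC
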