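import Pool.Agent.Lib.MP_ec63c8_an.HC.Kw
import Pool.Agent.Lib.MP_ec63c8_an.HC.Sg

/-!
Wave packets: a uniform resolvent bound for the shift gives type 2 and cotype 2.
-/

open Finset Pool.Agent.Lib.MP_f92ad0_an.Mep
open scoped BigOperators

namespace Pool.Agent.Lib.MP_ec63c8_an.HC

variable {X : Type} [NormedAddCommGroup X] [NormedSpace ℂ X]

/-- The number `1 + a + i s`. -/
noncomputable def vv (a s : ℝ) : ℂ := 1 + ((a : ℂ) + (s : ℂ) * Complex.I)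

/-- The resolvent of the shift generator on a finitely supported sequence. -/
noncomputable def G {E : Type} [AddCommGroup E] [Module ℂ E] (M : ℕ) (z : ℂ) (φ : ℕ → E)
    (k : ℕ) : E := ∑ n ∈ range M, z ^ (n + 1) • φ (k + n)

/-- Uniform resolvent bound for small `a`. -/
def Bd (X : Type) [NormedAddCommGroup X] [NormedSpace ℂ X] (K a₀ : ℝ) : Prop :=
  ∀ a : ℝ, 0 < a → a < a₀ → ∀ (M : ℕ) (φ : ℕ → X), (∀ k, M ≤ k → φ k = 0) → ∀ v : ℝ, 0 ≤ v →
    a * ∫ s in (0 : ℝ)..v, ∑ k ∈ range M, ‖G M (vv a s)⁻¹ φ k‖ ^ 2 ≤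
      K * ∑ k ∈ range M, ‖φ k‖ ^ 2

lemma norm_vv_sq (a s : ℝ) : ‖vv a s‖ ^ 2 = (1 + a) ^ 2 + s ^ 2 := norm_sq_one_add a s

lemma le_norm_vv {a : ℝ} (ha : 0 < a) (s : ℝ) : 1 + a ≤ ‖vv a s‖ :=
  (pow_le_pow_iff_left₀ (by positivity) (norm_nonneg _) two_ne_zero).1
    (by rw [norm_vv_sq]; nlinarith)

lemma vv_ne {a : ℝ} (ha : 0 < a) (s : ℝ) : vv a s ≠ 0 :=
  norm_pos_iff.1 (lt_of_lt_of_le (by positivity) (le_norm_vv ha s))

lemma norm_vv_pow_le {a s : ℝ} (ha : 0 < a) {q M : ℕ} (hq : q ≤ M)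
    (hM : M * (a + s ^ 2 / 2) ≤ 1) : ‖vv a s‖ ^ q ≤ 3 := by
  have h1 : ‖vv a s‖ ≤ 1 + (a + s ^ 2 / 2) :=
    (pow_le_pow_iff_left₀ (norm_nonneg _) (by positivity) two_ne_zero).1
      (by rw [norm_vv_sq]; nlinarith [sq_nonneg (s ^ 2), mul_nonneg ha.le (sq_nonneg s)])
  have h2 : ‖vv a s‖ ≤ Real.exp (a + s ^ 2 / 2) :=
    h1.trans (by linarith [Real.add_one_le_exp (a + s ^ 2 / 2)])
  have hq' : (q : ℝ) ≤ M := Nat.cast_le.2 hq
  calc ‖vv a s‖ ^ q ≤ Real.exp (a + s ^ 2 / 2) ^ q := by gcongr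
    _ = Real.exp (q * (a + s ^ 2 / 2)) := by rw [Real.exp_nat_mul]
    _ ≤ Real.exp 1 := Real.exp_le_exp.2 (le_trans (by gcongr) hM)
    _ ≤ 3 := by linarith [Real.exp_one_lt_d9]

lemma continuous_G {E : Type} [NormedAddCommGroup E] [NormedSpace ℂ E] {a : ℝ} (ha : 0 < a)
    (M : ℕ) (φ : ℕ → E) (k : ℕ) : Continuous fun s : ℝ => G M (vv a s)⁻¹ φ k := by
  have h : Continuous fun s : ℝ => (vv a s)⁻¹ :=
    Continuous.inv₀ (by unfold vv; fun_prop) (vv_ne ha)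
  unfold G
  fun_prop

lemma continuous_sum_G {a : ℝ} (ha : 0 < a) (M : ℕ) (φ : ℕ → X) :
    Continuous fun s : ℝ => ∑ k ∈ range M, ‖G M (vv a s)⁻¹ φ k‖ ^ 2 := by
  have h := fun k => continuous_G ha M φ k
  fun_prop

lemma continuous_avg {ι : Type} [Fintype ι] [DecidableEq ι] {a : ℝ} (ha : 0 < a) (M : ℕ)
    (φ : ι → ℕ → ℂ) (x : ι → X) :
    Continuous fun s : ℝ => ∑ k ∈ range M, R2 fun j => G M (vv a s)⁻¹ (φ j) k • x j := by
  have h := fun j k => continuous_G ha M (φ j) k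
  simp only [R2, expect_eq_div, rs]
  fun_prop

lemma G_rs {ι : Type} [Fintype ι] (M : ℕ) (z : ℂ) (φ : ι → ℕ → ℂ) (x : ι → X) (ε : ι → ℤˣ)
    (k : ℕ) : G M z (fun k => rs (fun j => φ j k • x j) ε) k =
      rs (fun j => G M z (φ j) k • x j) ε := by
  simp only [G, rs, Finset.smul_sum, Finset.sum_smul]
  rw [Finset.sum_comm]
  refine Finset.sum_congr rfl fun j _ => Finset.sum_congr rfl fun n _ => ?_
  rw [smul_comm, smul_assoc]

lemma avg {K a₀ : ℝ} (h : Bd X K a₀) {ι : Type} [Fintype ι] [DecidableEq ι] {a : ℝ} (ha : 0 < a)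
    (ha₀ : a < a₀) (M : ℕ) (φ : ι → ℕ → ℂ) (hφ : ∀ j k, M ≤ k → φ j k = 0) (x : ι → X) {v : ℝ}
    (hv : 0 ≤ v) :
    a * ∫ s in (0 : ℝ)..v, ∑ k ∈ range M, R2 (fun j => G M (vv a s)⁻¹ (φ j) k • x j) ≤
      K * ∑ k ∈ range M, R2 fun j => φ j k • x j := by
  have h1 := fun ε : ι → ℤˣ => h a ha ha₀ M (fun k => rs (fun j => φ j k • x j) ε)
    (fun k hk => by simp [rs, hφ _ k hk]) v hv
  have h2 := Finset.sum_le_sum fun ε (_ : ε ∈ (univ : Finset (ι → ℤˣ))) => h1 ε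
  rw [← Finset.mul_sum, ← Finset.mul_sum, ← intervalIntegral.integral_finsetSum
    (fun ε _ => (continuous_sum_G ha M _).intervalIntegrable _ _)] at h2
  simp only [G_rs] at h2
  simp only [R2, expect_eq_div, ← Finset.sum_div, intervalIntegral.integral_div]
  rw [← mul_div_assoc, ← mul_div_assoc]
  refine div_le_div_of_nonneg_right ?_ (by positivity)
  rw [Finset.sum_comm]
  refine le_trans (le_of_eq ?_) h2
  congr 1
  exact intervalIntegral.integral_congr fun s _ => Finset.sum_comm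

/-- A block of a geometric sequence. -/
noncomputable def blk (p m : ℕ) (v : ℂ) (k : ℕ) : ℂ := if p ≤ k ∧ k < p + m then v ^ k else 0

lemma norm_blk_le {a s : ℝ} (ha : 0 < a) {p m M : ℕ} (hM : p + m ≤ M)
    (hq : M * (a + s ^ 2 / 2) ≤ 1) (k : ℕ) : ‖blk p m (vv a s) k‖ ≤ 3 := by
  unfold blk
  split_ifs with h
  · rw [norm_pow]
    exact norm_vv_pow_le ha (by omega) hq
  · simp

lemma G_blk (z v : ℂ) {k d m M : ℕ} (hM : d + m ≤ M) :
    G M z (blk (k + d) m v) k = z ^ (d + 1) * v ^ (k + d) * ∑ r ∈ range m, (z * v) ^ r := by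
  have h1 : G M z (blk (k + d) m v) k = ∑ n ∈ Ico d (d + m), z ^ (n + 1) * v ^ (k + n) := by
    rw [G, ← Finset.sum_subset (s₁ := Ico d (d + m))
      (fun n hn => Finset.mem_range.2 (by rw [Finset.mem_Ico] at hn; omega))]
    · refine Finset.sum_congr rfl fun n hn => ?_
      rw [Finset.mem_Ico] at hn
      rw [blk, if_pos (by omega), smul_eq_mul]
    · intro n _ hn
      rw [Finset.mem_Ico] at hn
      rw [blk, if_neg (by omega), smul_zero]
  rw [h1, Finset.sum_Ico_eq_sum_range, Nat.add_sub_cancel_left, Finset.mul_sum]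
  exact Finset.sum_congr rfl fun r _ => by ring

lemma norm_pow_sub_one_le {w : ℂ} (hw : ‖w‖ ≤ 1) (n : ℕ) : ‖w ^ n - 1‖ ≤ n * ‖w - 1‖ := by
  induction n with
  | zero => simp
  | succ n ih =>
    have h1 : w ^ (n + 1) - 1 = w * (w ^ n - 1) + (w - 1) := by ring
    have h2 : ‖w * (w ^ n - 1)‖ ≤ ‖w ^ n - 1‖ := by
      rw [norm_mul]
      exact mul_le_of_le_one_left (norm_nonneg _) hw
    rw [h1]
    push_cast
    linarith [norm_add_le (w * (w ^ n - 1)) (w - 1)]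

lemma le_norm_geom {w : ℂ} (hw : ‖w‖ ≤ 1) {m : ℕ} (hm : m * ‖w - 1‖ ≤ 1 / 2) :
    (m : ℝ) / 2 ≤ ‖∑ r ∈ range m, w ^ r‖ := by
  have h1 : ‖∑ r ∈ range m, (w ^ r - 1)‖ ≤ ∑ _r ∈ range m, (1 / 2 : ℝ) :=
    norm_sum_le_of_le _ fun r hr => (norm_pow_sub_one_le hw r).trans
      (le_trans (mul_le_mul_of_nonneg_right (Nat.cast_le.2 (Finset.mem_range.1 hr).le)
        (norm_nonneg _)) hm)
  rw [Finset.sum_sub_distrib, Finset.sum_const, Finset.sum_const, Finset.card_range,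
    nsmul_eq_mul, nsmul_eq_mul, mul_one] at h1
  have h2 := norm_sub_norm_le (m : ℂ) (∑ r ∈ range m, w ^ r)
  rw [norm_sub_rev, Complex.norm_natCast] at h2
  linarith

lemma le_norm_G {a s₀ s : ℝ} (ha : 0 < a) (h0 : 0 ≤ s₀) (h1 : s₀ ≤ s) {p m M k : ℕ} (hk : k ≤ p)
    (hm0 : 0 < m) (hM : p + m ≤ M) (hm : m * (s - s₀) ≤ 1 / 2) (hq : M * (a + s ^ 2 / 2) ≤ 1) :
    (m : ℝ) / 6 ≤ ‖G M (vv a s)⁻¹ (blk p m (vv a s₀)) k‖ := by
  obtain ⟨d, rfl⟩ := Nat.exists_eq_add_of_le hk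
  have hv : 1 ≤ ‖vv a s‖ := le_trans (by linarith) (le_norm_vv ha s)
  have hv0 : 1 ≤ ‖vv a s₀‖ := le_trans (by linarith) (le_norm_vv ha s₀)
  have hvv : ‖vv a s₀‖ ≤ ‖vv a s‖ :=
    (pow_le_pow_iff_left₀ (norm_nonneg _) (norm_nonneg _) two_ne_zero).1
      (by rw [norm_vv_sq, norm_vv_sq]; nlinarith)
  have h2 : ‖(vv a s)⁻¹ * vv a s₀‖ ≤ 1 := by
    rw [norm_mul, norm_inv, inv_mul_le_iff₀ (by linarith), mul_one]
    exact hvv
  have h3 : ‖(vv a s)⁻¹ * vv a s₀ - 1‖ ≤ s - s₀ := by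
    have h4 : (vv a s)⁻¹ * vv a s₀ - 1 = (vv a s)⁻¹ * (((s₀ - s : ℝ) : ℂ) * Complex.I) := by
      have h5 : ((s₀ - s : ℝ) : ℂ) * Complex.I = vv a s₀ - vv a s := by
        simp only [vv]
        push_cast
        ring
      rw [h5, mul_sub, inv_mul_cancel₀ (vv_ne ha s)]
    rw [h4, norm_mul, norm_mul, Complex.norm_I, mul_one, Complex.norm_real, Real.norm_eq_abs,
      abs_sub_comm, abs_of_nonneg (by linarith), norm_inv]
    exact mul_le_of_le_one_left (by linarith) (inv_le_one_of_one_le₀ hv)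
  have h6 := le_norm_geom h2 (le_trans (mul_le_mul_of_nonneg_left h3 (Nat.cast_nonneg m)) hm)
  have h7 : (3 : ℝ)⁻¹ ≤ ‖(vv a s)⁻¹ ^ (d + 1)‖ := by
    rw [norm_pow, norm_inv, inv_pow]
    exact inv_anti₀ (by positivity) (norm_vv_pow_le ha (by omega) hq)
  have h8 : 1 ≤ ‖vv a s₀ ^ (k + d)‖ := by
    rw [norm_pow]
    exact one_le_pow₀ hv0
  rw [G_blk _ _ (by omega), norm_mul, norm_mul]
  calc (m : ℝ) / 6 = 3⁻¹ * 1 * (m / 2) := by ring
    _ ≤ _ := by gcongr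

lemma const_le_integral {H : ℝ → ℝ} (hH : Continuous H) {u w c : ℝ} (huw : u ≤ w)
    (hc : ∀ s ∈ Set.Icc u w, c ≤ H s) : (w - u) * c ≤ ∫ s in u..w, H s := by
  have h := intervalIntegral.integral_mono_on huw
    (continuous_const.intervalIntegrable (μ := MeasureTheory.volume) _ _)
    (hH.intervalIntegrable _ _) hc
  simpa using h

lemma R2_le_of_le {ι : Type} [Fintype ι] [DecidableEq ι] {c : ℝ} (hc : 0 < c) (α : ι → ℂ)
    (hα : ∀ j, c ≤ ‖α j‖) (x : ι → X) : c ^ 2 / 4 * R2 x ≤ R2 fun j => α j • x j := by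
  have hne : ∀ j, α j ≠ 0 := fun j => norm_pos_iff.1 (hc.trans_le (hα j))
  have h1 := R2_csmul_le (fun j => (c : ℂ) / α j) (fun j => by
    rw [norm_div, Complex.norm_real, Real.norm_of_nonneg hc.le]
    exact div_le_one_of_le₀ (hα j) (norm_nonneg _)) (fun j => α j • x j)
  have h2 : (fun j => ((c : ℂ) / α j) • α j • x j) = fun j => (c : ℂ) • x j := by
    funext j
    rw [smul_smul, div_mul_cancel₀ _ (hne j)]
  rw [h2, R2_smul, Complex.norm_real, Real.norm_of_nonneg hc.le] at h1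
  linarith

lemma R2_le_of_ge {ι : Type} [Fintype ι] [DecidableEq ι] (α : ι → ℂ)
    (hα : ∀ j, ‖α j‖ ≤ 3) (x : ι → X) : R2 (fun j => α j • x j) ≤ 36 * R2 x := by
  have h1 := R2_csmul_le (fun j => α j / 3) (fun j => by
    rw [norm_div, Complex.norm_ofNat]
    exact div_le_one_of_le₀ (hα j) (by norm_num)) x
  have h2 : (fun j => α j • x j) = fun j => (3 : ℂ) • ((α j / 3) • x j) := by
    funext j
    rw [smul_smul, mul_div_cancel₀ _ (by norm_num)]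
  rw [h2, R2_smul, Complex.norm_ofNat]
  linarith

omit [NormedSpace ℂ X] in
lemma R2_le_of_disj {ι : Type} [Fintype ι] [DecidableEq ι] (y : ι → X)
    (h : ∀ i j, y i ≠ 0 → y j ≠ 0 → i = j) : R2 y ≤ ∑ j, ‖y j‖ ^ 2 := by
  refine Finset.expect_le Finset.univ_nonempty fun ε _ => ?_
  by_cases h0 : ∃ i, y i ≠ 0
  · obtain ⟨i, hi⟩ := h0
    have h1 : rs y ε = (ε i : ℤ) • y i := Finset.sum_eq_single i
      (fun j _ hj => by
        have h2 : y j = 0 := by_contra fun h3 => hj (h j i h3 hi)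
        rw [h2, smul_zero]) (fun h2 => absurd (Finset.mem_univ i) h2)
    rw [h1, norm_units_smul]
    exact Finset.single_le_sum (f := fun j => ‖y j‖ ^ 2) (fun j _ => sq_nonneg _)
      (Finset.mem_univ i)
  · push Not at h0
    simp [rs, h0]

lemma sum_blk_le {a s : ℝ} (ha : 0 < a) {p m M : ℕ} (hM : p + m ≤ M)
    (hq : M * (a + s ^ 2 / 2) ≤ 1) (x : X) :
    ∑ k ∈ range M, ‖blk p m (vv a s) k • x‖ ^ 2 ≤ 9 * m * ‖x‖ ^ 2 := by
  rw [← Finset.sum_subset (s₁ := Ico p (p + m))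
    (fun n hn => Finset.mem_range.2 (by rw [Finset.mem_Ico] at hn; omega))]
  · refine (Finset.sum_le_card_nsmul _ _ (9 * ‖x‖ ^ 2) fun k _ => ?_).trans ?_
    · have h1 := pow_le_pow_left₀ (norm_nonneg _) (norm_blk_le ha hM hq k) 2
      rw [norm_smul, mul_pow]
      exact mul_le_mul_of_nonneg_right (by linarith) (sq_nonneg _)
    · rw [Nat.card_Ico, Nat.add_sub_cancel_left, nsmul_eq_mul]
      exact le_of_eq (by ring)
  · intro n _ hn
    rw [Finset.mem_Ico] at hn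
    rw [blk, if_neg hn]
    simp

lemma sum_ge {L : ℕ} {f : ℕ → ℝ} {c : ℝ} (h0 : ∀ k, 0 ≤ f k) (h : ∀ k, k < L → c ≤ f k) :
    L * c ≤ ∑ k ∈ range (2 * L), f k := by
  have h1 := Finset.card_nsmul_le_sum (range L) f c fun k hk => h k (Finset.mem_range.1 hk)
  rw [Finset.card_range, nsmul_eq_mul] at h1
  exact h1.trans (Finset.sum_le_sum_of_subset_of_nonneg
    (Finset.range_subset_range.2 (by omega)) fun k _ _ => h0 k)

theorem type_two {K a₀ : ℝ} (hK : 0 ≤ K) (ha₀ : 0 < a₀) (h : Bd X K a₀) (N : ℕ)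
    (x : Fin N → X) : R2 x ≤ 20736 * K * ∑ i, ‖x i‖ ^ 2 := by
  obtain ⟨m₀, hm₀⟩ := exists_nat_gt (1 / a₀)
  obtain ⟨m, hm1, hm2⟩ : ∃ m : ℕ, N + 1 ≤ m ∧ m₀ ≤ m := ⟨_, le_max_left _ _, le_max_right _ _⟩
  have hm0 : 0 < m := by omega
  have hmR : (0 : ℝ) < m := Nat.cast_pos.2 hm0
  have hNm : (N : ℝ) + 1 ≤ m := by exact_mod_cast hm1
  have hN0 : (0 : ℝ) ≤ N := Nat.cast_nonneg N
  obtain ⟨L, hL⟩ : ∃ L : ℕ, L = (N + 1) * m := ⟨_, rfl⟩
  have hLR : (L : ℝ) = (N + 1) * m := by rw [hL]; push_cast; ring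
  have hL0 : (0 : ℝ) < L := by rw [hLR]; positivity
  have ha : (0 : ℝ) < 1 / (4 * L) := by positivity
  have ha' : 1 / (4 * (L : ℝ)) < a₀ := by
    rw [div_lt_iff₀ ha₀] at hm₀
    rw [div_lt_iff₀ (by positivity)]
    have h1 : (m₀ : ℝ) ≤ m := Nat.cast_le.2 hm2
    have h2 : (m₀ : ℝ) ≤ 4 * L := by rw [hLR]; nlinarith
    nlinarith
  have hp : ∀ n : Fin N, (N + 1 + n) * m + m ≤ 2 * L := fun n => by
    have h1 : N + 1 + n + 1 ≤ 2 * (N + 1) := by omega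
    calc (N + 1 + n) * m + m = (N + 1 + n + 1) * m := by ring
      _ ≤ 2 * (N + 1) * m := Nat.mul_le_mul_right m h1
      _ = 2 * L := by rw [hL]; ring
  have hq : ∀ s : ℝ, 0 ≤ s → s ≤ 1 / (2 * m) →
      ((2 * L : ℕ) : ℝ) * (1 / (4 * L) + s ^ 2 / 2) ≤ 1 := fun s hs0 hs => by
    have h1 : s * m ≤ 1 / 2 := by
      rw [le_div_iff₀ (by positivity)] at hs
      linarith
    have h2 : (L : ℝ) * s ^ 2 ≤ (s * m) ^ 2 := by
      rw [hLR]
      nlinarith [mul_le_mul_of_nonneg_right hNm (mul_nonneg hmR.le (sq_nonneg s))]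
    have h3 : (s * m) ^ 2 ≤ (1 / 2) ^ 2 := pow_le_pow_left₀ (by positivity) h1 2
    have h4 : ((2 * L : ℕ) : ℝ) * (1 / (4 * L) + s ^ 2 / 2) = 1 / 2 + L * s ^ 2 := by
      push_cast
      field_simp
      ring
    rw [h4]
    linarith
  have h1 := avg h ha ha' (2 * L) (fun n : Fin N => blk ((N + 1 + n) * m) m (vv (1 / (4 * L)) 0))
    (fun n k hk => by rw [blk, if_neg (by have := hp n; omega)]) x
    (v := 1 / (2 * m)) (by positivity)
  have h2 := const_le_integral (continuous_avg ha (2 * L)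
    (fun n : Fin N => blk ((N + 1 + n) * m) m (vv (1 / (4 * L)) 0)) x)
    (u := 0) (w := 1 / (2 * m)) (c := L * ((m / 6) ^ 2 / 4 * R2 x)) (by positivity)
    (fun s hs => sum_ge (fun k => R2_nonneg _) fun k hk =>
      R2_le_of_le (by positivity) _ (fun n => le_norm_G ha le_rfl hs.1
        (by rw [hL] at hk; nlinarith [Nat.zero_le ((n : ℕ) * m)]) hm0 (hp n)
        (by have := hs.2
            rw [le_div_iff₀ (by positivity)] at this
            linarith) (hq s hs.1 hs.2)) x)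
  have h3 : ∑ k ∈ range (2 * L), R2 (fun n : Fin N =>
      blk ((N + 1 + n) * m) m (vv (1 / (4 * L)) 0) k • x n) ≤ 9 * m * ∑ i, ‖x i‖ ^ 2 := by
    refine (Finset.sum_le_sum fun k _ => R2_le_of_disj _ fun i j hi hj => ?_).trans ?_
    · have hb : ∀ n : Fin N, blk ((N + 1 + n) * m) m (vv (1 / (4 * L)) 0) k • x n ≠ 0 →
          k / m = N + 1 + n := fun n hn => by
        have h4 : (N + 1 + n) * m ≤ k ∧ k < (N + 1 + n) * m + m :=
          by_contra fun h5 => hn (by rw [blk, if_neg h5, zero_smul])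
        exact Nat.div_eq_of_lt_le h4.1 (by rw [add_mul _ 1 m, one_mul]; exact h4.2)
      have h6 := hb i hi
      have h7 := hb j hj
      exact Fin.ext (by omega)
    · rw [Finset.sum_comm, Finset.mul_sum]
      exact Finset.sum_le_sum fun n _ => sum_blk_le ha (hp n) (hq 0 le_rfl (by positivity)) _
  have h4 := (mul_le_mul_of_nonneg_left h2 ha.le).trans
    (h1.trans (mul_le_mul_of_nonneg_left h3 hK))
  have h5 : 1 / (4 * (L : ℝ)) * ((1 / (2 * m) - 0) * (L * ((m / 6) ^ 2 / 4 * R2 x))) =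
      m * (R2 x / 1152) := by
    field_simp
    ring
  rw [h5] at h4
  have h6 : R2 x / 1152 ≤ 9 * (K * ∑ i, ‖x i‖ ^ 2) :=
    le_of_mul_le_mul_left (h4.trans (le_of_eq (by ring))) hmR
  have h7 : 0 ≤ K * ∑ i, ‖x i‖ ^ 2 := by positivity
  linarith

theorem cotype_two {K a₀ : ℝ} (hK : 0 ≤ K) (ha₀ : 0 < a₀) (h : Bd X K a₀) (J : ℕ)
    (x : Fin J → X) : ∑ i, ‖x i‖ ^ 2 ≤ 20736 * K * R2 x := by
  obtain ⟨m₀, hm₀⟩ := exists_nat_gt (1 / a₀)
  obtain ⟨L, hL1, hL2⟩ : ∃ L : ℕ, J ^ 2 + 1 ≤ L ∧ m₀ ≤ L :=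
    ⟨_, le_max_left _ _, le_max_right _ _⟩
  have hL0 : 0 < L := by omega
  have hLR : (0 : ℝ) < L := Nat.cast_pos.2 hL0
  have hJL : (J : ℝ) ^ 2 + 1 ≤ L := by exact_mod_cast hL1
  have ha : (0 : ℝ) < 1 / (4 * L) := by positivity
  have ha' : 1 / (4 * (L : ℝ)) < a₀ := by
    rw [div_lt_iff₀ ha₀] at hm₀
    rw [div_lt_iff₀ (by positivity)]
    have h1 : (m₀ : ℝ) ≤ L := Nat.cast_le.2 hL2
    nlinarith
  obtain ⟨δ, hδ⟩ : ∃ δ : ℝ, δ = 1 / (2 * L) := ⟨_, rfl⟩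
  have hδ0 : 0 < δ := by rw [hδ]; positivity
  have hδL : L * δ = 1 / 2 := by rw [hδ]; field_simp
  have hq : ∀ s : ℝ, 0 ≤ s → s ≤ J * δ →
      ((2 * L : ℕ) : ℝ) * (1 / (4 * L) + s ^ 2 / 2) ≤ 1 := fun s hs0 hs => by
    have h1 : s ^ 2 ≤ (J * δ) ^ 2 := pow_le_pow_left₀ hs0 hs 2
    have h2 : (J * δ) ^ 2 ≤ L * δ ^ 2 := by
      rw [mul_pow]
      exact mul_le_mul_of_nonneg_right (by linarith) (sq_nonneg _)
    have h3 : (L : ℝ) * s ^ 2 ≤ (L * δ) ^ 2 :=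
      (mul_le_mul_of_nonneg_left (h1.trans h2) hLR.le).trans (le_of_eq (by ring))
    have h4 : ((2 * L : ℕ) : ℝ) * (1 / (4 * L) + s ^ 2 / 2) = 1 / 2 + L * s ^ 2 := by
      push_cast
      field_simp
      ring
    rw [hδL] at h3
    rw [h4]
    linarith
  have hj : ∀ j : Fin J, ((j : ℕ) : ℝ) + 1 ≤ J := fun j => by exact_mod_cast j.2
  have h1 := avg h ha ha' (2 * L) (fun j : Fin J => blk L L (vv (1 / (4 * L)) ((j : ℕ) * δ)))
    (fun n k hk => by rw [blk, if_neg (by omega)]) x (v := J * δ) (by positivity)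
  have hc := continuous_avg ha (2 * L)
    (fun j : Fin J => blk L L (vv (1 / (4 * L)) ((j : ℕ) * δ))) x
  have h2 := intervalIntegral.sum_integral_adjacent_intervals (μ := MeasureTheory.volume)
    (a := fun j : ℕ => (j : ℝ) * δ) (n := J) fun k _ => hc.intervalIntegrable _ _
  rw [Finset.sum_range, Nat.cast_zero, zero_mul] at h2
  have h3 : ∀ j : Fin J, δ * (L * ((L / 6) ^ 2 * ‖x j‖ ^ 2)) ≤
      ∫ s in ((j : ℕ) : ℝ) * δ..(((j : ℕ) + 1 : ℕ) : ℝ) * δ, ∑ k ∈ range (2 * L), R2 fun i =>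
        G (2 * L) (vv (1 / (4 * L)) s)⁻¹
          (blk L L (vv (1 / (4 * L)) (((i : Fin J) : ℕ) * δ))) k • x i := fun j => by
    have h4 : (((j : ℕ) + 1 : ℕ) : ℝ) * δ - ((j : ℕ) : ℝ) * δ = δ := by push_cast; ring
    have h5 := const_le_integral hc (u := ((j : ℕ) : ℝ) * δ) (w := (((j : ℕ) + 1 : ℕ) : ℝ) * δ)
      (c := L * ((L / 6) ^ 2 * ‖x j‖ ^ 2)) (by linarith) fun s hs =>
        sum_ge (fun k => R2_nonneg _) fun k hk => by
          refine le_trans ?_ (norm_sq_le_R2 ℂ _ j)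
          have hs0 : 0 ≤ ((j : ℕ) : ℝ) * δ := by positivity
          have hs2 := hs.2
          have h6 := le_norm_G ha hs0 hs.1 hk.le hL0 (M := 2 * L) (by omega)
            (by rw [← hδL]; exact mul_le_mul_of_nonneg_left (by linarith) hLR.le)
            (hq s (hs0.trans hs.1) (hs2.trans (mul_le_mul_of_nonneg_right
              (by push_cast; exact hj j) hδ0.le)))
          rw [norm_smul, mul_pow _ ‖x j‖]
          exact mul_le_mul_of_nonneg_right (pow_le_pow_left₀ (by positivity) h6 2) (sq_nonneg _)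
    rwa [h4] at h5
  have h4 := Finset.sum_le_sum fun j (_ : j ∈ (univ : Finset (Fin J))) => h3 j
  rw [h2, ← Finset.mul_sum, ← Finset.mul_sum, ← Finset.mul_sum] at h4
  have h5 : ∑ k ∈ range (2 * L), R2 (fun j : Fin J =>
      blk L L (vv (1 / (4 * L)) ((j : ℕ) * δ)) k • x j) ≤ 2 * L * (36 * R2 x) := by
    refine (Finset.sum_le_card_nsmul _ _ (36 * R2 x) fun k _ => R2_le_of_ge _ (fun j =>
      norm_blk_le ha (M := 2 * L) (by omega) (hq _ (by positivity)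
        (mul_le_mul_of_nonneg_right (by linarith [hj j]) hδ0.le)) k) x).trans ?_
    rw [Finset.card_range, nsmul_eq_mul]
    push_cast
    exact le_rfl
  have h6 := (mul_le_mul_of_nonneg_left h4 ha.le).trans
    (h1.trans (mul_le_mul_of_nonneg_left h5 hK))
  have h7 : 1 / (4 * (L : ℝ)) * (δ * (L * ((L / 6) ^ 2 * ∑ i, ‖x i‖ ^ 2))) =
      L * ((∑ i, ‖x i‖ ^ 2) / 288) := by
    rw [hδ]
    field_simp
    ring
  rw [h7] at h6
  have h8 : (∑ i, ‖x i‖ ^ 2) / 288 ≤ 72 * (K * R2 x) :=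
    le_of_mul_le_mul_left (h6.trans (le_of_eq (by ring))) hLR
  linarith

theorem hilbert_of_Bd [CompleteSpace X] {K a₀ : ℝ} (hK : 0 ≤ K) (ha₀ : 0 < a₀) (h : Bd X K a₀) :
    ∃ (H : Type) (_ : NormedAddCommGroup H) (_ : InnerProductSpace ℂ H) (_ : CompleteSpace H),
      Nonempty (X ≃L[ℂ] H) :=
  kwapien (K := 20736 * K) (by positivity) (type_two hK ha₀ h) (cotype_two hK ha₀ h)

end Pool.Agent.Lib.MP_ec63c8_an.HC
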